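import Mathlib

set_option autoImplicit false

open Filter Topology Set

namespace Pool.Agent.R221.Bi

/-- `f t = ∑ a k t^k` for all `t` -/
def Coeffs (f : ℂ → ℂ) (a : ℕ → ℂ) : Prop := ∀ t : ℂ, HasSum (fun k => a k * t ^ k) (f t)

/-- Taylor coefficients at the origin -/
noncomputable def tc (f : ℂ → ℂ) (k : ℕ) : ℂ := ((Nat.factorial k : ℕ) : ℂ)⁻¹ * iteratedDeriv k f 0

lemma coeffs_tc {f : ℂ → ℂ} (hf : Differentiable ℂ f) : Coeffs f (tc f) := by
  intro t
  have := Complex.hasSum_taylorSeries_of_entire hf 0 t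
  refine this.congr_fun ?_ |> fun h => h
  intro k
  simp only [tc, sub_zero, smul_eq_mul]
  ring

lemma tc_bound {f : ℂ → ℂ} (hf : Differentiable ℂ f) {ρ C : ℝ} (hρ : 0 < ρ)
    (h : ∀ t : ℂ, ‖t‖ = ρ → ‖f t‖ ≤ C) (k : ℕ) : ‖tc f k‖ ≤ C / ρ ^ k := by
  have h1 := Complex.norm_iteratedDeriv_le_of_forall_mem_sphere_norm_le (c := 0) (R := ρ) (C := C)
    (f := f) k hρ hf.diffContOnCl (fun z hz => h z (by simpa using hz))
  unfold tc
  rw [norm_mul, norm_inv, Complex.norm_natCast]
  have hk : (0 : ℝ) < (Nat.factorial k : ℕ) := by exact_mod_cast Nat.factorial_pos k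
  calc _ ≤ ((Nat.factorial k : ℕ) : ℝ)⁻¹ * (Nat.factorial k * C / ρ ^ k) := by gcongr
    _ = _ := by field_simp

lemma Coeffs.summable_norm {f : ℂ → ℂ} {a : ℕ → ℂ} (h : Coeffs f a) :
    Summable fun k => ‖a k‖ := by
  have := (h 1).summable.norm
  simpa using this

lemma coeffs_zero {a : ℕ → ℂ} (h : Coeffs (fun _ => 0) a) : ∀ k, a k = 0 := by
  intro k
  induction k using Nat.strong_induction_on with
  | _ k ih =>
    set S : ℝ := ∑' j, ‖a (j + (k + 1))‖ with hS
    have hsum : Summable fun j => ‖a (j + (k + 1))‖ :=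
      (summable_nat_add_iff (k + 1)).2 h.summable_norm
    have key : ∀ t : ℂ, t ≠ 0 → ‖t‖ ≤ 1 → ‖a k‖ ≤ ‖t‖ * S := by
      intro t ht ht1
      have h1 := (h t).summable.sum_add_tsum_nat_add (k + 1)
      rw [(h t).tsum_eq, Finset.sum_range_succ, Finset.sum_eq_zero, zero_add] at h1
      · have h2 : ∀ j, a (j + (k + 1)) * t ^ (j + (k + 1)) = t ^ k * (t * (a (j + (k + 1)) * t ^ j)) := by
          intro j
          rw [pow_add, pow_succ]; ring
        simp_rw [h2] at h1
        rw [tsum_mul_left, tsum_mul_left] at h1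
        have h3 : t ^ k * (a k + t * ∑' j, a (j + (k + 1)) * t ^ j) = 0 := by
          rw [mul_add, mul_comm (t ^ k) (a k)]; exact h1
        have h4 : a k = -(t * ∑' j, a (j + (k + 1)) * t ^ j) := by
          have := (mul_eq_zero.1 h3).resolve_left (pow_ne_zero k ht)
          exact eq_neg_of_add_eq_zero_left this
        rw [h4, norm_neg, norm_mul]
        gcongr
        refine tsum_of_norm_bounded hsum.hasSum fun j => ?_
        rw [norm_mul, norm_pow]
        exact mul_le_of_le_one_right (norm_nonneg _) (pow_le_one₀ (norm_nonneg _) ht1)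
      · intro j hj
        rw [Finset.mem_range] at hj
        rw [ih j hj, zero_mul]
    have hlim : Tendsto (fun x : ℝ => x * S) (𝓝[>] 0) (𝓝 0) := by
      have : Continuous fun x : ℝ => x * S := by fun_prop
      have h := this.tendsto 0
      simp only [zero_mul] at h
      exact h.mono_left nhdsWithin_le_nhds
    have hle : ‖a k‖ ≤ 0 := by
      refine ge_of_tendsto hlim ?_
      filter_upwards [Ioo_mem_nhdsGT (zero_lt_one (α := ℝ))] with x hx
      have := key (x : ℂ) (by exact_mod_cast hx.1.ne') (by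
        rw [Complex.norm_real, Real.norm_of_nonneg hx.1.le]; exact hx.2.le)
      rwa [Complex.norm_real, Real.norm_of_nonneg hx.1.le] at this
    exact norm_le_zero_iff.1 hle

lemma Coeffs.sub {f g : ℂ → ℂ} {a b : ℕ → ℂ} (hf : Coeffs f a) (hg : Coeffs g b) :
    Coeffs (fun t => f t - g t) (fun k => a k - b k) := by
  intro t
  refine ((hf t).sub (hg t)).congr_fun ?_ |> fun h => h
  intro k; ring

lemma Coeffs.add {f g : ℂ → ℂ} {a b : ℕ → ℂ} (hf : Coeffs f a) (hg : Coeffs g b) :
    Coeffs (fun t => f t + g t) (fun k => a k + b k) := by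
  intro t
  refine ((hf t).add (hg t)).congr_fun ?_ |> fun h => h
  intro k; ring

lemma Coeffs.smul {f : ℂ → ℂ} {a : ℕ → ℂ} (hf : Coeffs f a) (c : ℂ) :
    Coeffs (fun t => c * f t) (fun k => c * a k) := by
  intro t
  refine ((hf t).mul_left c).congr_fun ?_ |> fun h => h
  intro k; ring

lemma Coeffs.unique {f : ℂ → ℂ} {a b : ℕ → ℂ} (hf : Coeffs f a) (hg : Coeffs f b) : a = b := by
  have h := hf.sub hg
  have h' : Coeffs (fun _ => 0) (fun k => a k - b k) := by
    intro t; have := h t; simpa using this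
  funext k
  exact sub_eq_zero.1 (coeffs_zero h' k)

/-- shift of a sequence -/
def sh (a : ℕ → ℂ) : ℕ → ℂ
  | 0 => 0
  | k + 1 => a k

lemma Coeffs.shift {f : ℂ → ℂ} {a : ℕ → ℂ} (hf : Coeffs f a) :
    Coeffs (fun t => t * f t) (sh a) := by
  intro t
  rw [← hasSum_nat_add_iff' 1]
  simp only [Finset.range_one, Finset.sum_singleton, sh, zero_mul, sub_zero]
  refine ((hf t).mul_left t).congr_fun ?_ |> fun h => h
  intro k
  rw [pow_succ]; ring

lemma Coeffs.rotate {f : ℂ → ℂ} {a : ℕ → ℂ} (hf : Coeffs f a) (c : ℂ) :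
    Coeffs (fun t => f (c * t)) (fun k => c ^ k * a k) := by
  intro t
  refine (hf (c * t)).congr_fun ?_ |> fun h => h
  intro k
  rw [mul_pow]; ring

lemma Coeffs.conj {f : ℂ → ℂ} {a : ℕ → ℂ} (hf : Coeffs f a) :
    Coeffs (fun t => star (f (star t))) (fun k => star (a k)) := by
  intro t
  have := (hf (star t)).star
  refine this.congr_fun ?_ |> fun h => h
  intro k
  simp [star_pow]

/-- dividing an entire function by simple zeros -/
lemma exists_div {f : ℂ → ℂ} (hf : Differentiable ℂ f) (s : Finset ℂ) (h : ∀ r ∈ s, f r = 0) :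
    ∃ g : ℂ → ℂ, Differentiable ℂ g ∧ ∀ t, f t = (∏ r ∈ s, (t - r)) * g t := by
  classical
  induction s using Finset.induction_on with
  | empty => exact ⟨f, hf, fun t => by simp⟩
  | insert a s ha ih =>
    obtain ⟨g, hg, hfg⟩ := ih fun r hr => h r (Finset.mem_insert_of_mem hr)
    have hga : g a = 0 := by
      have h1 := h a (Finset.mem_insert_self _ _)
      rw [hfg a] at h1
      refine (mul_eq_zero.1 h1).resolve_left ?_
      refine Finset.prod_ne_zero_iff.2 ?_
      intro r hr h0
      rw [sub_eq_zero.1 h0] at ha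
      exact ha hr
    refine ⟨dslope g a, ?_, fun t => ?_⟩
    · rw [← differentiableOn_univ, Complex.differentiableOn_dslope univ_mem,
        differentiableOn_univ]
      exact hg
    · rw [Finset.prod_insert ha, hfg t]
      have h2 := sub_smul_dslope g a t
      rw [hga, sub_zero, smul_eq_mul] at h2
      rw [← h2]; ring

end Pool.Agent.R221.Bi
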