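import Mathlib

set_option autoImplicit false

open Filter Topology Set MeasureTheory intervalIntegral

namespace Pool.Agent.R221.Bi

/-- the character `e^{ijφ}` -/
noncomputable def ch (j : ℤ) (φ : ℝ) : ℂ := Complex.exp (Complex.I * ((j * φ : ℝ) : ℂ))

lemma ch_mul (j k : ℤ) (φ : ℝ) : ch j φ * ch k φ = ch (j + k) φ := by
  unfold ch
  rw [← Complex.exp_add]
  congr 1
  push_cast; ring

lemma ch_zero (φ : ℝ) : ch 0 φ = 1 := by simp [ch]

lemma ch_pow (j : ℤ) (φ : ℝ) (k : ℕ) : ch j φ ^ k = ch (k * j) φ := by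
  induction k with
  | zero => simp [ch_zero]
  | succ k ih => rw [pow_succ, ih, ch_mul]; congr 1; push_cast; ring

lemma ch_star (j : ℤ) (φ : ℝ) : star (ch j φ) = ch (-j) φ := by
  unfold ch
  rw [Complex.star_def, ← Complex.exp_conj]
  congr 1
  simp

lemma continuous_ch (j : ℤ) : Continuous (ch j) := by
  unfold ch; fun_prop

lemma norm_ch (j : ℤ) (φ : ℝ) : ‖ch j φ‖ = 1 := Complex.norm_exp_I_mul_ofReal _

lemma integral_ch {j : ℤ} (hj : j ≠ 0) : ∫ φ in (0 : ℝ)..2 * Real.pi, ch j φ = 0 := by
  have hj' : (Complex.I * j : ℂ) ≠ 0 := mul_ne_zero Complex.I_ne_zero (by exact_mod_cast hj)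
  have h1 : ∀ φ : ℝ, ch j φ = Complex.exp ((Complex.I * j) * φ) := by
    intro φ; unfold ch; congr 1; push_cast; ring
  simp_rw [h1]
  rw [integral_exp_mul_complex hj']
  have h2 : Complex.exp (Complex.I * j * ((2 * Real.pi : ℝ) : ℂ)) = 1 := by
    have : Complex.I * j * ((2 * Real.pi : ℝ) : ℂ) = j * (2 * Real.pi * Complex.I) := by
      push_cast; ring
    rw [this]
    exact Complex.exp_int_mul_two_pi_mul_I j
  rw [h2]
  simp

/-- trigonometric polynomials of degree at most `n` -/
noncomputable def TP (n : ℤ) : Submodule ℂ (ℝ → ℂ) := Submodule.span ℂ {f | ∃ j : ℤ, |j| ≤ n ∧ f = ch j}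

lemma ch_mem {j n : ℤ} (h : |j| ≤ n) : ch j ∈ TP n := Submodule.subset_span ⟨j, h, rfl⟩

lemma TP_mono {m n : ℤ} (h : m ≤ n) : TP m ≤ TP n :=
  Submodule.span_mono fun _ ⟨j, hj, hf⟩ => ⟨j, hj.trans h, hf⟩

lemma mul_mem {m n : ℤ} {f g : ℝ → ℂ} (hf : f ∈ TP m) (hg : g ∈ TP n) :
    (fun φ => f φ * g φ) ∈ TP (m + n) := by
  induction hf using Submodule.span_induction with
  | mem f hf =>
    obtain ⟨j, hj, rfl⟩ := hf
    induction hg using Submodule.span_induction with
    | mem g hg =>
      obtain ⟨k, hk, rfl⟩ := hg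
      have : (fun φ => ch j φ * ch k φ) = ch (j + k) := funext fun φ => ch_mul j k φ
      rw [this]
      exact ch_mem ((abs_add_le j k).trans (add_le_add hj hk))
    | zero =>
      have : (fun φ => ch j φ * (0 : ℝ → ℂ) φ) = 0 := by funext φ; simp
      rw [this]; exact Submodule.zero_mem _
    | add x y _ _ hx hy =>
      have : (fun φ => ch j φ * (x + y) φ) = (fun φ => ch j φ * x φ) + fun φ => ch j φ * y φ := by
        funext φ; simp [mul_add]
      rw [this]; exact Submodule.add_mem _ hx hy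
    | smul c x _ hx =>
      have : (fun φ => ch j φ * (c • x) φ) = c • fun φ => ch j φ * x φ := by
        funext φ; simp; ring
      rw [this]; exact Submodule.smul_mem _ _ hx
  | zero =>
    have : (fun φ => (0 : ℝ → ℂ) φ * g φ) = 0 := by funext φ; simp
    rw [this]; exact Submodule.zero_mem _
  | add x y _ _ hx hy =>
    have : (fun φ => (x + y) φ * g φ) = (fun φ => x φ * g φ) + fun φ => y φ * g φ := by
      funext φ; simp [add_mul]
    rw [this]; exact Submodule.add_mem _ hx hy
  | smul c x _ hx =>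
    have : (fun φ => (c • x) φ * g φ) = c • fun φ => x φ * g φ := by
      funext φ; simp; ring
    rw [this]; exact Submodule.smul_mem _ _ hx

lemma star_mem {n : ℤ} {f : ℝ → ℂ} (hf : f ∈ TP n) : (fun φ => star (f φ)) ∈ TP n := by
  induction hf using Submodule.span_induction with
  | mem f hf =>
    obtain ⟨j, hj, rfl⟩ := hf
    have : (fun φ => star (ch j φ)) = ch (-j) := funext fun φ => ch_star j φ
    rw [this]
    exact ch_mem (by rwa [abs_neg])
  | zero =>
    have : (fun φ => star ((0 : ℝ → ℂ) φ)) = 0 := by funext φ; simp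
    rw [this]; exact Submodule.zero_mem _
  | add x y _ _ hx hy =>
    have : (fun φ => star ((x + y) φ)) = (fun φ => star (x φ)) + fun φ => star (y φ) := by
      funext φ; simp
    rw [this]; exact Submodule.add_mem _ hx hy
  | smul c x _ hx =>
    have : (fun φ => star ((c • x) φ)) = star c • fun φ => star (x φ) := by
      funext φ; simp
    rw [this]; exact Submodule.smul_mem _ _ hx

lemma continuous_of_mem {n : ℤ} {f : ℝ → ℂ} (hf : f ∈ TP n) : Continuous f := by
  induction hf using Submodule.span_induction with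
  | mem f hf =>
    obtain ⟨j, hj, rfl⟩ := hf
    exact continuous_ch j
  | zero => exact continuous_zero
  | add x y _ _ hx hy => exact hx.add hy
  | smul c x _ hx => exact continuous_const.mul hx

lemma orth {n N : ℤ} (h : n < |N|) {f : ℝ → ℂ} (hf : f ∈ TP n) :
    ∫ φ in (0 : ℝ)..2 * Real.pi, ch N φ * f φ = 0 := by
  have hc := continuous_of_mem hf
  induction hf using Submodule.span_induction with
  | mem f hf =>
    obtain ⟨j, hj, rfl⟩ := hf
    simp_rw [ch_mul]
    apply integral_ch
    intro h0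
    have : j = -N := by omega
    rw [this, abs_neg] at hj
    omega
  | zero => simp
  | add x y hx hy ihx ihy =>
    have hxc := continuous_of_mem hx
    have hyc := continuous_of_mem hy
    have h1 : ∀ φ, ch N φ * (x + y) φ = ch N φ * x φ + ch N φ * y φ := fun φ => by
      simp [mul_add]
    simp_rw [h1]
    have h2 := intervalIntegral.integral_add (μ := volume) (a := 0) (b := 2 * Real.pi)
      (f := fun φ => ch N φ * x φ) (g := fun φ => ch N φ * y φ)
      (((continuous_ch N).mul hxc).intervalIntegrable _ _)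
      (((continuous_ch N).mul hyc).intervalIntegrable _ _)
    rw [h2, ihx hxc, ihy hyc, add_zero]
  | smul c x hx ihx =>
    have hxc := continuous_of_mem hx
    have h1 : ∀ φ, ch N φ * (c • x) φ = c * (ch N φ * x φ) := fun φ => by
      simp; ring
    simp_rw [h1]
    rw [intervalIntegral.integral_const_mul, ihx hxc, mul_zero]

lemma cos_mem : (fun φ : ℝ => (Real.cos φ : ℂ)) ∈ TP 1 := by
  have : (fun φ : ℝ => (Real.cos φ : ℂ)) = (1 / 2 : ℂ) • ch 1 + (1 / 2 : ℂ) • ch (-1) := by
    funext φ
    simp only [Pi.add_apply, Pi.smul_apply, smul_eq_mul, ch]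
    rw [Complex.ofReal_cos, Complex.cos]
    push_cast
    ring_nf
  rw [this]
  exact Submodule.add_mem _ (Submodule.smul_mem _ _ (ch_mem (by norm_num)))
    (Submodule.smul_mem _ _ (ch_mem (by norm_num)))

lemma sin_mem : (fun φ : ℝ => (Real.sin φ : ℂ)) ∈ TP 1 := by
  have : (fun φ : ℝ => (Real.sin φ : ℂ)) = (-Complex.I / 2 : ℂ) • ch 1 + (Complex.I / 2 : ℂ) • ch (-1) := by
    funext φ
    simp only [Pi.add_apply, Pi.smul_apply, smul_eq_mul, ch]
    rw [Complex.ofReal_sin, Complex.sin]
    push_cast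
    ring_nf
  rw [this]
  exact Submodule.add_mem _ (Submodule.smul_mem _ _ (ch_mem (by norm_num)))
    (Submodule.smul_mem _ _ (ch_mem (by norm_num)))

lemma const_mem (c : ℂ) {n : ℤ} (hn : 0 ≤ n) : (fun _ : ℝ => c) ∈ TP n := by
  have : (fun _ : ℝ => c) = c • ch 0 := by
    funext φ; simp [ch_zero]
  rw [this]
  exact Submodule.smul_mem _ _ (ch_mem (by simpa using hn))

end Pool.Agent.R221.Bi
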