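import Pool.Agent.R221.Bi.Coeff
import Pool.Agent.R221.Bi.Trig

set_option autoImplicit false

open Filter Topology Set

namespace Pool.Agent.R221.Bi

/-- an ellipse `(p1 x + p2 y + p0)² + (r2 y + r0)² = 1` -/
structure Conic where
  p1 : ℝ
  p2 : ℝ
  p0 : ℝ
  r2 : ℝ
  r0 : ℝ
  hp : p1 ≠ 0
  hr : r2 ≠ 0

namespace Conic

variable (E : Conic)

/-- the defining polynomial -/
noncomputable def Q (X Y : ℂ) : ℂ := (E.p1 * X + E.p2 * Y + E.p0) ^ 2 + (E.r2 * Y + E.r0) ^ 2 - 1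

/-- the real defining polynomial -/
noncomputable def Qr (x y : ℝ) : ℝ := (E.p1 * x + E.p2 * y + E.p0) ^ 2 + (E.r2 * y + E.r0) ^ 2 - 1

/-- quadratic coefficient along a direction -/
noncomputable def A (φ : ℝ) : ℝ :=
  (E.p1 * Real.cos φ + E.p2 * Real.sin φ) ^ 2 + (E.r2 * Real.sin φ) ^ 2

/-- linear coefficient along a direction -/
noncomputable def B (φ : ℝ) : ℝ :=
  2 * ((E.p1 * Real.cos φ + E.p2 * Real.sin φ) * E.p0 + E.r2 * Real.sin φ * E.r0)

/-- constant coefficient -/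
noncomputable def C : ℝ := E.p0 ^ 2 + E.r0 ^ 2 - 1

/-- discriminant -/
noncomputable def disc (φ : ℝ) : ℝ := E.B φ ^ 2 - 4 * E.A φ * E.C

lemma Q_ofReal (x y : ℝ) : E.Q x y = (E.Qr x y : ℂ) := by
  simp [Q, Qr]

lemma Q_polar (t : ℂ) (φ : ℝ) : E.Q (t * Real.cos φ) (t * Real.sin φ) =
    E.A φ * t ^ 2 + E.B φ * t + E.C := by
  simp only [Q, A, B, C]
  push_cast
  ring

lemma Qr_polar (t φ : ℝ) : E.Qr (t * Real.cos φ) (t * Real.sin φ) =
    E.A φ * t ^ 2 + E.B φ * t + E.C := by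
  simp only [Qr, A, B, C]
  ring

lemma A_pos (φ : ℝ) : 0 < E.A φ := by
  unfold A
  by_contra h
  have h1 := sq_nonneg (E.p1 * Real.cos φ + E.p2 * Real.sin φ)
  have h2 := sq_nonneg (E.r2 * Real.sin φ)
  have h3 : (E.r2 * Real.sin φ) ^ 2 = 0 := by linarith
  have h4 : (E.p1 * Real.cos φ + E.p2 * Real.sin φ) ^ 2 = 0 := by linarith
  have h5 : Real.sin φ = 0 := (mul_eq_zero.1 (pow_eq_zero_iff (two_ne_zero) |>.1 h3)).resolve_left E.hr
  rw [h5, mul_zero, add_zero] at h4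
  have h6 : Real.cos φ = 0 := (mul_eq_zero.1 (pow_eq_zero_iff (two_ne_zero) |>.1 h4)).resolve_left E.hp
  have := Real.sin_sq_add_cos_sq φ
  rw [h5, h6] at this
  norm_num at this

lemma continuous_A : Continuous E.A := by unfold A; fun_prop
lemma continuous_B : Continuous E.B := by unfold B; fun_prop

lemma A_periodic : Function.Periodic E.A (2 * Real.pi) := by
  intro φ; simp [A]

lemma A_lower : ∃ c : ℝ, 0 < c ∧ ∀ φ, c ≤ E.A φ := by
  obtain ⟨m, hm, hmin⟩ := (isCompact_Icc (a := (0 : ℝ)) (b := 2 * Real.pi)).exists_isMinOn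
    (nonempty_Icc.2 (by have := Real.pi_pos; positivity)) E.continuous_A.continuousOn
  refine ⟨E.A m, E.A_pos m, fun φ => ?_⟩
  obtain ⟨y, hy, hyφ⟩ := E.A_periodic.exists_mem_Ico₀ (by have := Real.pi_pos; positivity) φ
  rw [hyφ]
  exact hmin (Ico_subset_Icc_self hy)

lemma A_le (φ : ℝ) : E.A φ ≤ (|E.p1| + |E.p2|) ^ 2 + |E.r2| ^ 2 := by
  unfold A
  have hc := Real.abs_cos_le_one φ
  have hs := Real.abs_sin_le_one φ
  have h1 : |E.p1 * Real.cos φ + E.p2 * Real.sin φ| ≤ |E.p1| + |E.p2| := by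
    refine (abs_add_le _ _).trans ?_
    rw [abs_mul, abs_mul]
    exact add_le_add (mul_le_of_le_one_right (abs_nonneg _) hc)
      (mul_le_of_le_one_right (abs_nonneg _) hs)
  have h2 : |E.r2 * Real.sin φ| ≤ |E.r2| := by
    rw [abs_mul]; exact mul_le_of_le_one_right (abs_nonneg _) hs
  rw [← sq_abs (E.p1 * Real.cos φ + E.p2 * Real.sin φ), ← sq_abs (E.r2 * Real.sin φ)]
  gcongr

lemma B_le (φ : ℝ) : |E.B φ| ≤ 2 * ((|E.p1| + |E.p2|) * |E.p0| + |E.r2| * |E.r0|) := by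
  unfold B
  have hc := Real.abs_cos_le_one φ
  have hs := Real.abs_sin_le_one φ
  have h1 : |E.p1 * Real.cos φ + E.p2 * Real.sin φ| ≤ |E.p1| + |E.p2| := by
    refine (abs_add_le _ _).trans ?_
    rw [abs_mul, abs_mul]
    exact add_le_add (mul_le_of_le_one_right (abs_nonneg _) hc)
      (mul_le_of_le_one_right (abs_nonneg _) hs)
  have h2 : |E.r2 * Real.sin φ| ≤ |E.r2| := by
    rw [abs_mul]; exact mul_le_of_le_one_right (abs_nonneg _) hs
  rw [abs_mul, abs_two]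
  gcongr
  refine (abs_add_le _ _).trans ?_
  rw [abs_mul, abs_mul (E.r2 * Real.sin φ)]
  gcongr

end Conic

/-- resultant of the two quadratic polynomials along a direction -/
noncomputable def res (E F : Conic) (φ : ℝ) : ℝ :=
  (E.A φ * F.C - F.A φ * E.C) ^ 2 -
    (E.A φ * F.B φ - F.A φ * E.B φ) * (E.B φ * F.C - F.B φ * E.C)

/-- good directions -/
def goodDir (E F : Conic) : Set ℝ := {φ | E.disc φ ≠ 0 ∧ F.disc φ ≠ 0 ∧ res E F φ ≠ 0}

lemma eventually_eq_zero_all {f : ℝ → ℝ} (hf : AnalyticOnNhd ℝ f univ) {x : ℝ}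
    (h : ∀ᶠ y in 𝓝 x, f y = 0) (y : ℝ) : f y = 0 :=
  hf.eqOn_zero_of_preconnected_of_eventuallyEq_zero isPreconnected_univ (mem_univ x) h (mem_univ y)

lemma disc_neg (E : Conic) (h : 1 < E.r0 ^ 2) : ∀ᶠ φ in 𝓝 (0 : ℝ), E.disc φ < 0 := by
  have hc : Continuous E.disc := by
    unfold Conic.disc
    have := E.continuous_A
    have := E.continuous_B
    fun_prop
  apply hc.continuousAt.eventually_lt continuousAt_const
  simp only [Conic.disc, Conic.A, Conic.B, Conic.C, Real.cos_zero, Real.sin_zero]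
  have h1 : 0 < E.p1 ^ 2 := by have := E.hp; positivity
  nlinarith

lemma dense_good (E F : Conic) (hE : 1 < E.r0 ^ 2) (hF : 1 < F.r0 ^ 2)
    (hne : ∃ x y : ℝ, ¬ (E.Qr x y = 0 ↔ F.Qr x y = 0)) : Dense (goodDir E F) := by
  have hCE : 0 < E.C := by unfold Conic.C; nlinarith [sq_nonneg E.p0]
  have hCF : 0 < F.C := by unfold Conic.C; nlinarith [sq_nonneg F.p0]
  rw [dense_iff_inter_open]
  intro U hU hUne
  by_contra hcon
  rw [not_nonempty_iff_eq_empty] at hcon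
  obtain ⟨φ0, hφ0⟩ := hUne
  have hD : AnalyticOnNhd ℝ (fun φ => E.disc φ * F.disc φ * res E F φ) univ := by
    intro x _
    simp only [Conic.disc, res, Conic.A, Conic.B, Conic.C]
    fun_prop
  have h0 : ∀ᶠ φ in 𝓝 φ0, E.disc φ * F.disc φ * res E F φ = 0 := by
    filter_upwards [hU.mem_nhds hφ0] with φ hφ
    by_contra hne0
    have h1 := left_ne_zero_of_mul hne0
    have : φ ∈ U ∩ goodDir E F :=
      ⟨hφ, left_ne_zero_of_mul h1, right_ne_zero_of_mul h1, right_ne_zero_of_mul hne0⟩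
    rw [hcon] at this
    exact this
  have hall := eventually_eq_zero_all hD h0
  have hnear : ∀ᶠ φ in 𝓝 (0 : ℝ), E.A φ * F.C - F.A φ * E.C = 0 ∧
      E.B φ * F.C - F.B φ * E.C = 0 := by
    filter_upwards [disc_neg E hE, disc_neg F hF] with φ h1 h2
    have h3 : res E F φ = 0 := by
      have h4 := hall φ
      rcases mul_eq_zero.1 h4 with h5 | h5
      · rcases mul_eq_zero.1 h5 with h6 | h6
        · exact absurd h6 h1.ne
        · exact absurd h6 h2.ne
      · exact h5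
    set a := E.A φ * F.C - F.A φ * E.C with ha
    set b := E.B φ * F.C - F.B φ * E.C with hb
    have hAE := E.A_pos φ
    have h4 : (2 * E.A φ * b - E.B φ * a) ^ 2 + (-(E.disc φ)) * a ^ 2 = 0 := by
      have : (2 * E.A φ * b - E.B φ * a) ^ 2 + (-(E.disc φ)) * a ^ 2 =
          4 * E.A φ * (E.C * res E F φ) := by
        rw [ha, hb]
        unfold res Conic.disc
        ring
      rw [this, h3]; ring
    have h5 : 0 ≤ (2 * E.A φ * b - E.B φ * a) ^ 2 := sq_nonneg _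
    have h6 : 0 ≤ (-(E.disc φ)) * a ^ 2 := mul_nonneg (by linarith) (sq_nonneg _)
    have h7 : a = 0 := by
      have : (-(E.disc φ)) * a ^ 2 = 0 := by linarith
      have := (mul_eq_zero.1 this).resolve_left (by linarith)
      exact pow_eq_zero_iff (two_ne_zero) |>.1 this
    refine ⟨h7, ?_⟩
    rw [h7] at h4
    have h8 : (2 * E.A φ * b) ^ 2 = 0 := by linarith
    have h9 := pow_eq_zero_iff (two_ne_zero) |>.1 h8
    exact (mul_eq_zero.1 h9).resolve_left (by positivity)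
  have ha : ∀ φ, E.A φ * F.C - F.A φ * E.C = 0 := by
    refine eventually_eq_zero_all (fun x _ => ?_) (hnear.mono fun φ h => h.1)
    simp only [Conic.A, Conic.C]
    fun_prop
  have hb : ∀ φ, E.B φ * F.C - F.B φ * E.C = 0 := by
    refine eventually_eq_zero_all (fun x _ => ?_) (hnear.mono fun φ h => h.2)
    simp only [Conic.B, Conic.C]
    fun_prop
  obtain ⟨x, y, hxy⟩ := hne
  apply hxy
  -- polar coordinates
  set z : ℂ := ⟨x, y⟩ with hz
  have hx : x = ‖z‖ * Real.cos z.arg := by rw [Complex.norm_mul_cos_arg]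
  have hy : y = ‖z‖ * Real.sin z.arg := by rw [Complex.norm_mul_sin_arg]
  rw [hx, hy, Conic.Qr_polar, Conic.Qr_polar]
  have e1 := ha z.arg
  have e2 := hb z.arg
  set t := ‖z‖ with ht
  have e3 : F.C * (E.A z.arg * t ^ 2 + E.B z.arg * t + E.C) =
      E.C * (F.A z.arg * t ^ 2 + F.B z.arg * t + F.C) := by
    linear_combination t ^ 2 * e1 + t * e2
  constructor
  · intro h
    rw [h, mul_zero] at e3
    exact (mul_eq_zero.1 e3.symm).resolve_left hCE.ne'
  · intro h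
    rw [h, mul_zero] at e3
    exact (mul_eq_zero.1 e3).resolve_left hCF.ne'

/-- the four roots along a good direction -/
lemma four_roots (E F : Conic) {φ : ℝ} (h : φ ∈ goodDir E F) :
    ∃ s : Finset ℂ, (∀ r ∈ s, (E.A φ * r ^ 2 + E.B φ * r + E.C : ℂ) = 0 ∨
      (F.A φ * r ^ 2 + F.B φ * r + F.C : ℂ) = 0) ∧
      ∀ t : ℂ, (E.A φ * t ^ 2 + E.B φ * t + E.C) * (F.A φ * t ^ 2 + F.B φ * t + F.C) =
        (E.A φ * F.A φ) * ∏ r ∈ s, (t - r) := by
  classical
  obtain ⟨h1, h2, h3⟩ := h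
  have quad : ∀ G : Conic, G.disc φ ≠ 0 → ∃ r s : ℂ, r ≠ s ∧
      ∀ t : ℂ, (G.A φ * t ^ 2 + G.B φ * t + G.C : ℂ) = G.A φ * ((t - r) * (t - s)) := by
    intro G hG
    obtain ⟨d, hd⟩ := IsAlgClosed.exists_pow_nat_eq ((G.disc φ : ℝ) : ℂ) (n := 2) (by norm_num)
    have hA : (G.A φ : ℂ) ≠ 0 := by exact_mod_cast (G.A_pos φ).ne'
    have hd0 : d ≠ 0 := by
      intro h0
      rw [h0] at hd
      apply hG
      have : ((G.disc φ : ℝ) : ℂ) = 0 := by rw [← hd]; ring
      exact_mod_cast this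
    refine ⟨(-(G.B φ) + d) / (2 * G.A φ), (-(G.B φ) - d) / (2 * G.A φ), ?_, fun t => ?_⟩
    · intro heq
      rw [div_left_inj' (mul_ne_zero two_ne_zero hA)] at heq
      apply hd0
      have : (2 : ℂ) * d = 0 := by linear_combination heq
      exact (mul_eq_zero.1 this).resolve_left two_ne_zero
    · have hd' : d ^ 2 = (G.B φ : ℂ) ^ 2 - 4 * G.A φ * G.C := by
        rw [hd]; unfold Conic.disc; push_cast; ring
      field_simp
      linear_combination (1 / 4 : ℂ) * 0 + hd' * 1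
  obtain ⟨r1, r2, hr12, hE⟩ := quad E h1
  obtain ⟨r3, r4, hr34, hF⟩ := quad F h2
  have hcommon : ∀ r : ℂ, (E.A φ * r ^ 2 + E.B φ * r + E.C : ℂ) = 0 →
      (F.A φ * r ^ 2 + F.B φ * r + F.C : ℂ) = 0 → False := by
    intro r hr1 hr2
    apply h3
    have : ((res E F φ : ℝ) : ℂ) = 0 := by
      unfold res
      push_cast
      set a1 : ℂ := (E.A φ : ℂ)
      set b1 : ℂ := (E.B φ : ℂ)
      set c1 : ℂ := (E.C : ℂ)
      set a2 : ℂ := (F.A φ : ℂ)
      set b2 : ℂ := (F.B φ : ℂ)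
      set c2 : ℂ := (F.C : ℂ)
      have e1 : (a1 * b2 - a2 * b1) * r + (a1 * c2 - a2 * c1) = 0 := by
        linear_combination a1 * hr2 - a2 * hr1
      have e2 : (a1 * b2 - a2 * b1) * r ^ 2 = b1 * c2 - b2 * c1 := by
        linear_combination b2 * hr1 - b1 * hr2
      have e3 : a1 * c2 - a2 * c1 = -((a1 * b2 - a2 * b1) * r) := by linear_combination e1
      rw [e3, ← e2]
      ring
    exact_mod_cast this
  have hE1 : (E.A φ * r1 ^ 2 + E.B φ * r1 + E.C : ℂ) = 0 := by rw [hE]; ring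
  have hE2 : (E.A φ * r2 ^ 2 + E.B φ * r2 + E.C : ℂ) = 0 := by rw [hE]; ring
  have hF3 : (F.A φ * r3 ^ 2 + F.B φ * r3 + F.C : ℂ) = 0 := by rw [hF]; ring
  have hF4 : (F.A φ * r4 ^ 2 + F.B φ * r4 + F.C : ℂ) = 0 := by rw [hF]; ring
  have n13 : r1 ≠ r3 := fun h => hcommon r1 hE1 (h ▸ hF3)
  have n14 : r1 ≠ r4 := fun h => hcommon r1 hE1 (h ▸ hF4)
  have n23 : r2 ≠ r3 := fun h => hcommon r2 hE2 (h ▸ hF3)
  have n24 : r2 ≠ r4 := fun h => hcommon r2 hE2 (h ▸ hF4)
  refine ⟨{r1, r2, r3, r4}, ?_, fun t => ?_⟩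
  · intro r hr
    simp only [Finset.mem_insert, Finset.mem_singleton] at hr
    rcases hr with rfl | rfl | rfl | rfl
    · exact Or.inl hE1
    · exact Or.inl hE2
    · exact Or.inr hF3
    · exact Or.inr hF4
  · rw [Finset.prod_insert (by simp [hr12, n13, n14]), Finset.prod_insert (by simp [n23, n24]),
      Finset.prod_insert (by simp [hr34]), Finset.prod_singleton, hE, hF]
    ring

end Pool.Agent.R221.Bi
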