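import Pool.Agent.R221.Bi.Conic

set_option autoImplicit false

open Filter Topology Set MeasureTheory

namespace Pool.Agent.R221.Bi

/-- `w ↦ conj (f (conj w))` -/
noncomputable def cs (f : ℂ → ℂ) (w : ℂ) : ℂ := star (f (star w))

lemma cs_diff {f : ℂ → ℂ} (hf : Differentiable ℂ f) : Differentiable ℂ (cs f) := by
  intro w
  have := (hf (star w)).star_star
  rw [star_star] at this
  exact this

/-- the complexification of `Re (z̄ F(z) + G(z))` -/
noncomputable def U (F G : ℂ → ℂ) (X Y : ℂ) : ℂ :=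
  (1 / 2 : ℂ) * ((X - Complex.I * Y) * F (X + Complex.I * Y) +
    (X + Complex.I * Y) * cs F (X - Complex.I * Y) + G (X + Complex.I * Y) +
    cs G (X - Complex.I * Y))

/-- the real function -/
noncomputable def V (F G : ℂ → ℂ) (z : ℂ) : ℝ := (star z * F z + G z).re

lemma U_real (F G : ℂ → ℂ) (x y : ℝ) : U F G x y = (V F G (x + Complex.I * y) : ℂ) := by
  have h1 : star ((x : ℂ) - Complex.I * y) = x + Complex.I * y := by
    simp [Complex.star_def]
  have h2 : star ((x : ℂ) + Complex.I * y) = x - Complex.I * y := by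
    simp [Complex.star_def]; ring
  unfold U V cs
  rw [h1]
  set z : ℂ := x + Complex.I * y with hz
  rw [h2]
  set w : ℂ := x - Complex.I * y with hw
  have h3 : z = star w := h1.symm
  have h4 : (((w * F z + G z).re : ℝ) : ℂ) = (1 / 2) * ((w * F z + G z) + star (w * F z + G z)) := by
    rw [Complex.star_def, Complex.add_conj]
    push_cast; ring
  rw [h4, star_add, star_mul', ← h3]
  ring

lemma vanish {F G : ℂ → ℂ} (hF : Differentiable ℂ F) (hG : Differentiable ℂ G) (E : Conic)
    (h : ∀ x y : ℝ, E.Qr x y = 0 → V F G (x + Complex.I * y) = 0) (X Y : ℂ)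
    (hXY : E.Q X Y = 0) : U F G X Y = 0 := by
  have hp : (E.p1 : ℂ) ≠ 0 := by exact_mod_cast E.hp
  have hr : (E.r2 : ℂ) ≠ 0 := by exact_mod_cast E.hr
  set Yt : ℂ → ℂ := fun θ => (Complex.sin θ - E.r0) / E.r2 with hYt
  set Xt : ℂ → ℂ := fun θ => (Complex.cos θ - E.p0 - E.p2 * Yt θ) / E.p1 with hXt
  have hYd : Differentiable ℂ Yt := by simp only [hYt]; fun_prop
  have hXd : Differentiable ℂ Xt := by simp only [hXt]; fun_prop
  have hU : Differentiable ℂ fun θ => U F G (Xt θ) (Yt θ) := by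
    unfold U
    have h1 : Differentiable ℂ fun θ => Xt θ + Complex.I * Yt θ := by fun_prop
    have h2 : Differentiable ℂ fun θ => Xt θ - Complex.I * Yt θ := by fun_prop
    have a1 := hF.comp h1
    have a2 := (cs_diff hF).comp h2
    have a3 := hG.comp h1
    have a4 := (cs_diff hG).comp h2
    exact (((h2.mul a1).add (h1.mul a2)).add a3 |>.add a4).const_mul _
  have hreal : ∀ θ : ℝ, U F G (Xt θ) (Yt θ) = 0 := by
    intro θ
    set y : ℝ := (Real.sin θ - E.r0) / E.r2 with hy
    set x : ℝ := (Real.cos θ - E.p0 - E.p2 * y) / E.p1 with hx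
    have e1 : Yt θ = (y : ℂ) := by simp [hYt, hy]
    have e2 : Xt θ = (x : ℂ) := by simp [hXt, hx, e1]
    rw [e1, e2, U_real, h x y]
    · simp
    · unfold Conic.Qr
      have e3 : E.p1 * x + E.p2 * y + E.p0 = Real.cos θ := by
        rw [hx]; have := E.hp; field_simp; ring
      have e4 : E.r2 * y + E.r0 = Real.sin θ := by
        rw [hy]; have := E.hr; field_simp; ring
      rw [e3, e4]
      have := Real.sin_sq_add_cos_sq θ
      linarith
  have hzero : ∀ θ : ℂ, U F G (Xt θ) (Yt θ) = 0 := by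
    have han : AnalyticOnNhd ℂ (fun θ => U F G (Xt θ) (Yt θ)) univ :=
      (hU.differentiableOn).analyticOnNhd isOpen_univ
    have hfreq : ∃ᶠ z in 𝓝[≠] (0 : ℂ), U F G (Xt z) (Yt z) = 0 := by
      have ht : Tendsto (fun x : ℝ => (x : ℂ)) (𝓝[>] 0) (𝓝[≠] 0) := by
        rw [tendsto_nhdsWithin_iff]
        constructor
        · have := Complex.continuous_ofReal.tendsto 0
          simp only [Complex.ofReal_zero] at this
          exact this.mono_left nhdsWithin_le_nhds
        · filter_upwards [self_mem_nhdsWithin] with x hx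
          simpa using (ne_of_gt hx)
      exact ht.frequently (Eventually.frequently (Eventually.of_forall fun x => hreal x))
    have := han.eqOn_zero_of_preconnected_of_frequently_eq_zero isPreconnected_univ
      (mem_univ 0) hfreq
    intro θ
    exact this (mem_univ θ)
  -- parametrize the complex conic
  set P : ℂ := E.p1 * X + E.p2 * Y + E.p0 with hP
  set R : ℂ := E.r2 * Y + E.r0 with hR
  have hPR : (P + Complex.I * R) * (P - Complex.I * R) = 1 := by
    have h1 : P ^ 2 + R ^ 2 - 1 = 0 := hXY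
    have h2 : (P + Complex.I * R) * (P - Complex.I * R) = P ^ 2 - Complex.I ^ 2 * R ^ 2 := by ring
    rw [h2, Complex.I_sq]
    linear_combination h1
  have hne : P + Complex.I * R ≠ 0 := left_ne_zero_of_mul_eq_one hPR
  set θ : ℂ := -Complex.I * Complex.log (P + Complex.I * R) with hθ
  have e1 : Complex.exp (θ * Complex.I) = P + Complex.I * R := by
    have : θ * Complex.I = Complex.log (P + Complex.I * R) := by
      rw [hθ]
      have := Complex.I_mul_I
      linear_combination (-Complex.log (P + Complex.I * R)) * this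
    rw [this, Complex.exp_log hne]
  have e2 : Complex.exp (-θ * Complex.I) = P - Complex.I * R := by
    rw [neg_mul, Complex.exp_neg, e1]
    exact inv_eq_of_mul_eq_one_right hPR
  have hcos : Complex.cos θ = P := by
    rw [Complex.cos, e1, e2]; ring
  have hsin : Complex.sin θ = R := by
    rw [Complex.sin, e1, e2]
    linear_combination (-R) * Complex.I_sq
  have hY : Yt θ = Y := by
    simp only [hYt]
    rw [hsin, hR]; field_simp; ring
  have hX : Xt θ = X := by
    simp only [hXt]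
    rw [hcos, hY, hP]; field_simp; ring
  have := hzero θ
  rwa [hX, hY] at this

/-- the restriction to a line through the origin -/
noncomputable def uu (F G : ℂ → ℂ) (φ : ℝ) (t : ℂ) : ℂ :=
  U F G (t * Real.cos φ) (t * Real.sin φ)

lemma ch_one (φ : ℝ) : ch 1 φ = Real.cos φ + Complex.I * Real.sin φ := by
  unfold ch
  rw [mul_comm, Complex.exp_mul_I]
  simp; ring

lemma ch_neg_one (φ : ℝ) : ch (-1) φ = Real.cos φ - Complex.I * Real.sin φ := by
  unfold ch
  rw [mul_comm, Complex.exp_mul_I]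
  simp; ring

lemma uu_eq (F G : ℂ → ℂ) (φ : ℝ) (t : ℂ) : uu F G φ t = (1 / 2 : ℂ) *
    (ch (-1) φ * (t * F (ch 1 φ * t)) + ch 1 φ * (t * cs F (ch (-1) φ * t)) +
      G (ch 1 φ * t) + cs G (ch (-1) φ * t)) := by
  unfold uu U
  have h1 : t * (Real.cos φ : ℂ) + Complex.I * (t * (Real.sin φ : ℂ)) = ch 1 φ * t := by
    rw [ch_one]; ring
  have h2 : t * (Real.cos φ : ℂ) - Complex.I * (t * (Real.sin φ : ℂ)) = ch (-1) φ * t := by
    rw [ch_neg_one]; ring
  rw [h1, h2]
  ring

/-- the homogeneous parts -/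
noncomputable def aa (F G : ℂ → ℂ) (k : ℕ) (φ : ℝ) : ℂ :=
  (1 / 2 : ℂ) * (sh (tc F) k * ch (k - 2) φ + star (sh (tc F) k) * ch (-(k - 2)) φ +
    tc G k * ch k φ + star (tc G k) * ch (-k) φ)

lemma uu_coeffs {F G : ℂ → ℂ} (hF : Differentiable ℂ F) (hG : Differentiable ℂ G) (φ : ℝ) :
    Coeffs (uu F G φ) (fun k => aa F G k φ) := by
  have cF := coeffs_tc hF
  have cG := coeffs_tc hG
  have h := (((((cF.rotate (ch 1 φ)).shift.smul (ch (-1) φ)).add
    ((cF.conj.rotate (ch (-1) φ)).shift.smul (ch 1 φ))).add (cG.rotate (ch 1 φ))).add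
    (cG.conj.rotate (ch (-1) φ))).smul (1 / 2)
  intro t
  have ht := h t
  rw [uu_eq]
  refine ht.congr_fun ?_ |> fun h => h
  intro k
  unfold aa
  congr 2
  rcases k with _ | k
  · simp [sh, ch_zero]
  · simp only [sh, ch_pow]
    have e1 : ch (-1) φ * (ch (k * 1) φ * tc F k) = tc F k * ch (((k + 1 : ℕ) : ℤ) - 2) φ := by
      rw [← mul_assoc, ch_mul, mul_comm]
      congr 2; push_cast; ring
    have e2 : ch 1 φ * (ch (k * -1) φ * star (tc F k)) =
        star (tc F k) * ch (-(((k + 1 : ℕ) : ℤ) - 2)) φ := by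
      rw [← mul_assoc, ch_mul, mul_comm]
      congr 2; push_cast; ring
    have e3 : ch (((k + 1 : ℕ) : ℤ) * 1) φ * tc G (k + 1) = tc G (k + 1) * ch ((k + 1 : ℕ) : ℤ) φ := by
      rw [mul_one, mul_comm]
    have e4 : ch (((k + 1 : ℕ) : ℤ) * -1) φ * star (tc G (k + 1)) =
        star (tc G (k + 1)) * ch (-((k + 1 : ℕ) : ℤ)) φ := by
      rw [mul_neg, mul_one, mul_comm]
    rw [e1, e2, e3, e4]

lemma aa_mem (F G : ℂ → ℂ) (k : ℕ) : aa F G k ∈ TP k := by
  have h : aa F G k = (1 / 2 * sh (tc F) k) • ch (k - 2) + (1 / 2 * star (sh (tc F) k)) • ch (-(k - 2)) +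
      (1 / 2 * tc G k) • ch k + (1 / 2 * star (tc G k)) • ch (-k) := by
    funext φ
    simp only [aa, Pi.add_apply, Pi.smul_apply, smul_eq_mul]
    ring
  rw [h]
  have h3 : ch (k : ℤ) ∈ TP k := ch_mem (by simp)
  have h4 : ch (-k : ℤ) ∈ TP k := ch_mem (by simp)
  rcases k with _ | k
  · have : sh (tc F) 0 = 0 := rfl
    rw [this]
    simp only [mul_zero, star_zero, zero_smul, zero_add, add_zero]
    exact Submodule.add_mem _ (Submodule.smul_mem _ _ h3) (Submodule.smul_mem _ _ h4)
  · have h1 : ch (((k + 1 : ℕ) : ℤ) - 2) ∈ TP ((k + 1 : ℕ) : ℤ) := by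
      apply ch_mem
      rw [abs_le]; constructor <;> push_cast <;> linarith [Int.natCast_nonneg k]
    have h2 : ch (-(((k + 1 : ℕ) : ℤ) - 2)) ∈ TP ((k + 1 : ℕ) : ℤ) := by
      apply ch_mem
      rw [abs_neg, abs_le]; constructor <;> push_cast <;> linarith [Int.natCast_nonneg k]
    exact Submodule.add_mem _ (Submodule.add_mem _ (Submodule.add_mem _
      (Submodule.smul_mem _ _ h1) (Submodule.smul_mem _ _ h2)) (Submodule.smul_mem _ _ h3))
      (Submodule.smul_mem _ _ h4)

lemma aa_orth (F G : ℂ → ℂ) (k : ℕ) {h : ℝ → ℂ} (hh : h ∈ TP ((k : ℤ) - 4)) :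
    ∫ φ in (0 : ℝ)..2 * Real.pi, aa F G k φ * h φ = 0 := by
  have hc := continuous_of_mem hh
  have hi : ∀ j, IntervalIntegrable (fun φ => ch j φ * h φ) volume 0 (2 * Real.pi) := fun j =>
    ((continuous_ch j).mul hc).intervalIntegrable _ _
  have h1 : ∀ φ, aa F G k φ * h φ = (1 / 2 * sh (tc F) k) * (ch (k - 2) φ * h φ) +
      (1 / 2 * star (sh (tc F) k)) * (ch (-(k - 2)) φ * h φ) +
      (1 / 2 * tc G k) * (ch k φ * h φ) + (1 / 2 * star (tc G k)) * (ch (-k) φ * h φ) := by
    intro φ; unfold aa; ring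
  simp_rw [h1]
  have i1 := (hi (k - 2)).const_mul (1 / 2 * sh (tc F) k)
  have i2 := (hi (-(k - 2))).const_mul (1 / 2 * star (sh (tc F) k))
  have i3 := (hi k).const_mul (1 / 2 * tc G k)
  have i4 := (hi (-k)).const_mul (1 / 2 * star (tc G k))
  rw [intervalIntegral.integral_add ((i1.add i2).add i3) i4,
    intervalIntegral.integral_add (i1.add i2) i3, intervalIntegral.integral_add i1 i2]
  simp only [intervalIntegral.integral_const_mul]
  have a1 : (k : ℤ) - 4 < |(k : ℤ) - 2| := lt_of_lt_of_le (by omega) (le_abs_self _)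
  have a2 : (k : ℤ) - 4 < |(k : ℤ)| := lt_of_lt_of_le (by omega) (le_abs_self _)
  rw [orth a1 hh, orth (by rwa [abs_neg]) hh, orth a2 hh, orth (by rwa [abs_neg]) hh]
  simp

end Pool.Agent.R221.Bi
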