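import Pool.Agent.R221.Bi.Core

set_option autoImplicit false

open Filter Topology Set InnerProductSpace

namespace Pool.Agent.R221.Bi

/-- The Euclidean plane. -/
abbrev Plane : Type := EuclideanSpace ℝ (Fin 2)

/-- The class `H²(ℝ²)`: real-analytic functions on the plane with `Δ²u = 0`. -/
def IsBiharmonic (u : Plane → ℝ) : Prop :=
  AnalyticOnNhd ℝ u univ ∧ ∀ x, Laplacian.laplacian (Laplacian.laplacian u) x = 0

/-- An ellipse `{x : (x - c)ᵀ A (x - c) = 1}`, `A` real symmetric positive definite. -/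
def IsEllipse (S : Set Plane) : Prop :=
  ∃ (c : Plane) (A : Matrix (Fin 2) (Fin 2) ℝ), A.PosDef ∧
    S = {x | (x - c).ofLp ⬝ᵥ A.mulVec (x - c).ofLp = 1}

/-- the isometry `ℂ ≃ ℝ²` -/
noncomputable def iso : ℂ ≃ₗᵢ[ℝ] Plane := Complex.orthonormalBasisOneI.repr

lemma iso_apply (z : ℂ) : iso z = !₂[z.re, z.im] := by
  unfold iso
  ext i
  fin_cases i
  · simp [Complex.orthonormalBasisOneI_repr_apply]
  · simp [Complex.orthonormalBasisOneI_repr_apply]

lemma lap_comp {f : Plane → ℝ} (hf : ContDiff ℝ 2 f) :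
    Laplacian.laplacian (f ∘ iso) = (Laplacian.laplacian f) ∘ iso := by
  funext z
  rw [laplacian_eq_iteratedFDeriv_orthonormalBasis (f ∘ iso) Complex.orthonormalBasisOneI]
  simp only [Function.comp]
  rw [laplacian_eq_iteratedFDeriv_orthonormalBasis f (Complex.orthonormalBasisOneI.map iso)]
  refine Finset.sum_congr rfl fun i _ => ?_
  have h := (iso.toContinuousLinearEquiv : ℂ →L[ℝ] Plane).iteratedFDeriv_comp_right
    (f := f) hf z (i := 2) le_rfl
  have h' : iteratedFDeriv ℝ 2 (f ∘ iso) z = (iteratedFDeriv ℝ 2 f (iso z)).compContinuousLinearMap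
    fun _ => (iso.toContinuousLinearEquiv : ℂ →L[ℝ] Plane) := h
  change iteratedFDeriv ℝ 2 (f ∘ iso) z _ = _
  rw [h']
  rw [ContinuousMultilinearMap.compContinuousLinearMap_apply]
  congr 1
  funext j
  fin_cases j <;> simp

/-- real derivative of `Re (a A(w) + w̄ B(w))` -/
lemma fd_general (a : ℂ) {A B : ℂ → ℂ} {A' B' : ℂ} {z : ℂ} (hA : HasDerivAt A A' z)
    (hB : HasDerivAt B B' z) :
    ∃ L : ℂ →L[ℝ] ℝ, HasFDerivAt (fun w => (a * A w + star w * B w).re) L z ∧
      ∀ v, L v = (a * (A' * v) + star v * B z + star z * (B' * v)).re := by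
  have h1 : HasFDerivAt A _ z := hA.hasFDerivAt.restrictScalars ℝ
  have h2 : HasFDerivAt B _ z := hB.hasFDerivAt.restrictScalars ℝ
  have h3 : HasFDerivAt (fun w : ℂ => star w) (Complex.conjCLE : ℂ →L[ℝ] ℂ) z :=
    (Complex.conjCLE : ℂ →L[ℝ] ℂ).hasFDerivAt
  have h4 := ((h1.const_mul a).add (h3.mul h2))
  have h5 := Complex.reCLM.hasFDerivAt.comp z h4
  refine ⟨_, h5, fun v => ?_⟩
  simp
  ring

lemma iter2 {f : ℂ → ℝ} (hf : ContDiff ℝ 2 f) (z v : ℂ) :
    iteratedFDeriv ℝ 2 f z ![v, v] = fderiv ℝ (fun w => fderiv ℝ f w v) z v := by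
  rw [iteratedFDeriv_two_apply]
  have h1 : DifferentiableAt ℝ (fderiv ℝ f) z :=
    (hf.fderiv_right (m := 1) (by norm_num)).differentiable (by norm_num) z
  have h2 := h1.hasFDerivAt.clm_apply (hasFDerivAt_const v z)
  rw [h2.fderiv]
  simp

lemma lap_re {P P1 P2 : ℂ → ℂ} (hP : ∀ z, HasDerivAt P (P1 z) z) (hP1 : ∀ z, HasDerivAt P1 (P2 z) z)
    (hc : ContDiff ℝ 2 fun z : ℂ => (star z * P z).re) (z : ℂ) :
    Laplacian.laplacian (fun z : ℂ => (star z * P z).re) z = 4 * (P1 z).re := by
  rw [laplacian_eq_iteratedFDeriv_complexPlane]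
  simp only
  have hfirst : ∀ v w, fderiv ℝ (fun z : ℂ => (star z * P z).re) w v =
      (star v * P w + star w * (P1 w * v)).re := by
    intro v w
    obtain ⟨L, hL, hLv⟩ := fd_general 0 (hP w) (hP w)
    have : (fun z : ℂ => (star z * P z).re) = fun w => (0 * P w + star w * P w).re := by
      funext w; simp
    rw [this, hL.fderiv, hLv]
    simp
  have hsecond : ∀ v, iteratedFDeriv ℝ 2 (fun z : ℂ => (star z * P z).re) z ![v, v] =
      (star v * (P1 z * v) + star v * (P1 z * v) + star z * (P2 z * v * v)).re := by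
    intro v
    rw [iter2 hc]
    obtain ⟨L, hL, hLv⟩ := fd_general (star v) (hP z) ((hP1 z).mul_const v)
    have : (fun w => fderiv ℝ (fun z : ℂ => (star z * P z).re) w v) =
        fun w => (star v * P w + star w * (P1 w * v)).re := funext fun w => hfirst v w
    rw [this, hL.fderiv, hLv]
  rw [hsecond, hsecond]
  simp
  ring

lemma biharmonic_rep {u : Plane → ℝ} (hu : IsBiharmonic u) :
    ∃ F G : ℂ → ℂ, Differentiable ℂ F ∧ Differentiable ℂ G ∧ ∀ z, u (iso z) = V F G z := by
  obtain ⟨hua, hub⟩ := hu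
  have huc : ContDiff ℝ ⊤ u := (contDiffOn_univ.1 (hua.contDiffOn uniqueDiffOn_univ))
  set v : ℂ → ℝ := u ∘ iso with hv
  have hvc : ContDiff ℝ ⊤ v := huc.comp (iso.toContinuousLinearEquiv : ℂ →L[ℝ] Plane).contDiff
  -- the Laplacian of `u` is smooth
  have hlap : ∀ {n : WithTop ℕ∞}, ContDiff ℝ n (Laplacian.laplacian u) := by
    intro n
    rw [laplacian_eq_iteratedFDeriv_orthonormalBasis u (EuclideanSpace.basisFun (Fin 2) ℝ)]
    refine ContDiff.sum fun i _ => ?_
    have h1 : ContDiff ℝ ⊤ (iteratedFDeriv ℝ 2 u) := huc.iteratedFDeriv_right (by simp)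
    exact ((ContinuousMultilinearMap.apply ℝ (fun _ : Fin 2 => Plane) ℝ _).contDiff.comp
      (h1.of_le le_top))
  have hlapv : Laplacian.laplacian v = (Laplacian.laplacian u) ∘ iso :=
    lap_comp (huc.of_le le_top)
  have hharm : HarmonicOnNhd (Laplacian.laplacian v) univ := by
    intro z _
    constructor
    · rw [hlapv]
      exact (hlap.comp (iso.toContinuousLinearEquiv : ℂ →L[ℝ] Plane).contDiff).contDiffAt
    · rw [hlapv, lap_comp hlap]
      exact Eventually.of_forall fun w => hub (iso w)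
  obtain ⟨H, hH, hHre⟩ := hharm.exists_analyticOnNhd_univ_re_eq
  have hHd : Differentiable ℂ H := fun z => (hH z (mem_univ z)).differentiableAt
  have hH4 : Differentiable ℂ fun z => H z / 4 := hHd.div_const 4
  obtain ⟨P, -, hP⟩ := hH4.isExactOn_univ.with_val_at 0 0
  have hP' : ∀ z, HasDerivAt P (H z / 4) z := fun z => hP z (mem_univ z)
  have hPd : Differentiable ℂ P := fun z => (hP' z).differentiableAt
  have hP1 : ∀ z, HasDerivAt (fun z => H z / 4) (deriv (fun z => H z / 4) z) z := fun z =>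
    (hH4 z).hasDerivAt
  have hPc : ContDiff ℝ ⊤ fun z : ℂ => (star z * P z).re := by
    have h1 : ContDiff ℝ ⊤ P := (hPd.contDiff (n := ⊤)).restrict_scalars ℝ
    have h2 : ContDiff ℝ ⊤ (fun z : ℂ => star z) := (Complex.conjCLE : ℂ →L[ℝ] ℂ).contDiff
    exact Complex.reCLM.contDiff.comp (h2.mul h1)
  have hdiff : HarmonicOnNhd (fun z => v z - (star z * P z).re) univ := by
    intro z _
    constructor
    · exact ((hvc.sub hPc).of_le le_top).contDiffAt
    · refine Eventually.of_forall fun w => ?_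
      have h1 : Laplacian.laplacian (fun z => v z - (star z * P z).re) w =
          Laplacian.laplacian v w -
          Laplacian.laplacian (fun z : ℂ => (star z * P z).re) w :=
        ContDiffAt.laplacian_sub (f₁ := v) (f₂ := fun z : ℂ => (star z * P z).re)
          (hvc.of_le le_top).contDiffAt (hPc.of_le le_top).contDiffAt
      rw [h1, lap_re hP' hP1 (hPc.of_le le_top)]
      have h2 : (H w).re = Laplacian.laplacian v w := congrFun hHre w
      rw [← h2]
      simp only [Pi.zero_apply]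
      have : (H w / 4).re = (H w).re / 4 := by
        simp
      rw [this]; ring
  obtain ⟨G, hG, hGre⟩ := hdiff.exists_analyticOnNhd_univ_re_eq
  refine ⟨P, G, hPd, fun z => (hG z (mem_univ z)).differentiableAt, fun z => ?_⟩
  have h3 : (G z).re = v z - (star z * P z).re := congrFun hGre z
  unfold V
  rw [Complex.add_re, h3]
  simp only [hv, Function.comp]
  ring

end Pool.Agent.R221.Bi
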