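import Pool.Agent.R221.Bi.Ineq
import Pool.Agent.R221.Bi.Rep

set_option autoImplicit false

open Filter Topology Set

namespace Pool.Agent.R221.Bi

/-- an ellipse in normal form -/
lemma exists_conic {S : Set Plane} (hS : IsEllipse S) :
    ∃ E : Conic, ∀ x y : ℝ, !₂[x, y] ∈ S ↔ E.Qr x y = 0 := by
  obtain ⟨c, A, hA, rfl⟩ := hS
  have hsymm : A 1 0 = A 0 1 := by
    have := hA.isHermitian.apply 0 1
    simpa using this
  have hpos : ∀ a b : ℝ, (a ≠ 0 ∨ b ≠ 0) → 0 < A 0 0 * a ^ 2 + 2 * A 0 1 * a * b + A 1 1 * b ^ 2 := by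
    intro a b hab
    have hne : (![a, b] : Fin 2 → ℝ) ≠ 0 := by
      intro h
      have h0 := congrFun h 0
      have h1 := congrFun h 1
      simp at h0 h1
      rcases hab with h | h
      · exact h h0
      · exact h h1
    have := hA.dotProduct_mulVec_pos hne
    simp [Matrix.mulVec, dotProduct, Fin.sum_univ_two] at this
    rw [hsymm] at this
    linarith
  have ha : 0 < A 0 0 := by have := hpos 1 0 (Or.inl one_ne_zero); simpa using this
  set a := A 0 0 with ha'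
  set b := A 0 1 with hb'
  set d := A 1 1 with hd'
  have hdet : 0 < d - b ^ 2 / a := by
    have := hpos (-(b / a)) 1 (Or.inr one_ne_zero)
    have e : a * (-(b / a)) ^ 2 + 2 * b * (-(b / a)) * 1 + d * 1 ^ 2 = d - b ^ 2 / a := by
      field_simp; ring
    rw [e] at this
    exact this
  set s := Real.sqrt a with hs
  set r := Real.sqrt (d - b ^ 2 / a) with hr
  have hs0 : 0 < s := Real.sqrt_pos.2 ha
  have hr0 : 0 < r := Real.sqrt_pos.2 hdet
  have hs2 : s ^ 2 = a := Real.sq_sqrt ha.le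
  have hr2 : r ^ 2 = d - b ^ 2 / a := Real.sq_sqrt hdet.le
  refine ⟨⟨s, b / s, -(s * c 0 + b / s * c 1), r, -(r * c 1), hs0.ne', hr0.ne'⟩, fun x y => ?_⟩
  simp only [mem_ofPred_eq, Conic.Qr]
  have e1 : ((!₂[x, y] : Plane) - c).ofLp ⬝ᵥ A.mulVec ((!₂[x, y] : Plane) - c).ofLp =
      a * (x - c 0) ^ 2 + 2 * b * (x - c 0) * (y - c 1) + d * (y - c 1) ^ 2 := by
    simp [Matrix.mulVec, dotProduct, Fin.sum_univ_two]
    rw [hsymm]
    ring
  rw [e1]
  have e2 : (s * x + b / s * y + -(s * c 0 + b / s * c 1)) ^ 2 + (r * y + -(r * c 1)) ^ 2 - 1 =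
      a * (x - c 0) ^ 2 + 2 * b * (x - c 0) * (y - c 1) + d * (y - c 1) ^ 2 - 1 := by
    have e3 : (s * x + b / s * y + -(s * c 0 + b / s * c 1)) ^ 2 =
        s ^ 2 * (x - c 0) ^ 2 + 2 * b * (x - c 0) * (y - c 1) + b ^ 2 / s ^ 2 * (y - c 1) ^ 2 := by
      field_simp; ring
    have e4 : (r * y + -(r * c 1)) ^ 2 = r ^ 2 * (y - c 1) ^ 2 := by ring
    rw [e3, e4, hs2, hr2]
    ring
  rw [e2, sub_eq_zero]

/-- translation of a conic in the `y` direction -/
def shiftY (E : Conic) (η : ℝ) : Conic :=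
  ⟨E.p1, E.p2, E.p0 + E.p2 * η, E.r2, E.r0 + E.r2 * η, E.hp, E.hr⟩

lemma shiftY_Qr (E : Conic) (η x y : ℝ) : (shiftY E η).Qr x y = E.Qr x (y + η) := by
  unfold shiftY Conic.Qr
  ring

lemma exists_shift (E F : Conic) : ∃ η : ℝ, 1 < (shiftY E η).r0 ^ 2 ∧ 1 < (shiftY F η).r0 ^ 2 := by
  have key : ∀ G : Conic, ∀ᶠ η : ℝ in atTop, 1 < (G.r0 + G.r2 * η) ^ 2 := by
    intro G
    have hr := G.hr
    have h1 : 0 < |G.r2| := abs_pos.2 hr
    filter_upwards [eventually_gt_atTop ((2 + |G.r0|) / |G.r2|)] with η hη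
    rw [div_lt_iff₀ h1] at hη
    have h0 : 0 < η := by
      by_contra h
      have := abs_nonneg G.r0
      nlinarith
    have h2 : |G.r2 * η| = η * |G.r2| := by rw [abs_mul, abs_of_pos h0]; ring
    have h3 : 1 < |G.r0 + G.r2 * η| := by
      have h4 : |G.r2 * η| ≤ |G.r0 + G.r2 * η| + |G.r0| := by
        have := abs_sub (G.r0 + G.r2 * η) G.r0
        rwa [add_sub_cancel_left] at this
      linarith
    rw [← sq_abs]
    nlinarith
  obtain ⟨η, h⟩ := ((key E).and (key F)).exists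
  exact ⟨η, h.1, h.2⟩

theorem main {u : Plane → ℝ} (hu : IsBiharmonic u) {S T : Set Plane} (hS : IsEllipse S)
    (hT : IsEllipse T) (hne : S ≠ T) (hz : ∀ x ∈ S ∪ T, u x = 0) (x : Plane) : u x = 0 := by
  obtain ⟨F, G, hF, hG, hrep⟩ := biharmonic_rep hu
  obtain ⟨E1, hE1⟩ := exists_conic hS
  obtain ⟨E2, hE2⟩ := exists_conic hT
  obtain ⟨η, hη1, hη2⟩ := exists_shift E1 E2
  set z0 : ℂ := Complex.I * η with hz0
  set F1 : ℂ → ℂ := fun z => F (z + z0) with hF1
  set G1 : ℂ → ℂ := fun z => star z0 * F (z + z0) + G (z + z0) with hG1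
  have hF1d : Differentiable ℂ F1 := hF.comp (by fun_prop)
  have hG1d : Differentiable ℂ G1 :=
    ((hF.comp (show Differentiable ℂ fun z : ℂ => z + z0 by fun_prop)).const_mul _).add
      (hG.comp (by fun_prop))
  have hV : ∀ z, V F1 G1 z = u (iso (z + z0)) := by
    intro z
    rw [hrep]
    unfold V
    simp only [hF1, hG1, star_add]
    congr 1
    ring
  have hiso : ∀ x y : ℝ, iso ((x : ℂ) + Complex.I * y + z0) = !₂[x, y + η] := by
    intro x y
    rw [iso_apply]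
    simp [hz0]
  have hvan1 : ∀ x y : ℝ, (shiftY E1 η).Qr x y = 0 → V F1 G1 (x + Complex.I * y) = 0 := by
    intro x y h
    rw [hV, hiso]
    apply hz
    left
    rw [hE1, ← shiftY_Qr]
    exact h
  have hvan2 : ∀ x y : ℝ, (shiftY E2 η).Qr x y = 0 → V F1 G1 (x + Complex.I * y) = 0 := by
    intro x y h
    rw [hV, hiso]
    apply hz
    right
    rw [hE2, ← shiftY_Qr]
    exact h
  have hdist : ∃ x y : ℝ, ¬ ((shiftY E1 η).Qr x y = 0 ↔ (shiftY E2 η).Qr x y = 0) := by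
    by_contra hcon
    push Not at hcon
    apply hne
    ext p
    have hp : p = !₂[p 0, p 1] := by
      ext i; fin_cases i <;> simp
    rw [hp, hE1, hE2]
    have := hcon (p 0) (p 1 - η)
    rw [shiftY_Qr, shiftY_Qr, sub_add_cancel] at this
    exact this
  have hcore := core (E := shiftY E1 η) (F' := shiftY E2 η) hF1d hG1d hη1 hη2 hdist hvan1 hvan2
  have h := hcore (iso.symm x - z0)
  rw [hV, sub_add_cancel, LinearIsometryEquiv.apply_symm_apply] at h
  exact h

end Pool.Agent.R221.Bi
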