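import Pool.Agent.R221.Bi.Core

set_option autoImplicit false

open Filter Topology Set MeasureTheory

namespace Pool.Agent.R221.Bi

variable (E F' : Conic)

/-- coefficients of the product of the two quadratic polynomials -/
noncomputable def q0 : ℝ := E.C * F'.C
/-- first -/
noncomputable def q1 (φ : ℝ) : ℝ := E.B φ * F'.C + E.C * F'.B φ
/-- second -/
noncomputable def q2 (φ : ℝ) : ℝ := E.A φ * F'.C + E.B φ * F'.B φ + E.C * F'.A φ
/-- third -/
noncomputable def q3 (φ : ℝ) : ℝ := E.A φ * F'.B φ + E.B φ * F'.A φ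
/-- fourth -/
noncomputable def q4 (φ : ℝ) : ℝ := E.A φ * F'.A φ

/-- quotient coefficients, shifted by four -/
noncomputable def gg (E F' : Conic) (F G : ℂ → ℂ) : ℕ → ℝ → ℂ
  | 0 => fun _ => 0
  | 1 => fun _ => 0
  | 2 => fun _ => 0
  | 3 => fun _ => 0
  | m + 4 => fun φ => (q0 E F' : ℂ)⁻¹ * (aa F G m φ - q1 E F' φ * gg E F' F G (m + 3) φ -
      q2 E F' φ * gg E F' F G (m + 2) φ - q3 E F' φ * gg E F' F G (m + 1) φ -
      q4 E F' φ * gg E F' F G m φ)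

variable {E F'} {F G : ℂ → ℂ}

lemma gg_rel (h0 : q0 E F' ≠ 0) (m : ℕ) (φ : ℝ) :
    (q0 E F' : ℂ) * gg E F' F G (m + 4) φ + q1 E F' φ * gg E F' F G (m + 3) φ +
      q2 E F' φ * gg E F' F G (m + 2) φ + q3 E F' φ * gg E F' F G (m + 1) φ +
      q4 E F' φ * gg E F' F G m φ = aa F G m φ := by
  have h0' : (q0 E F' : ℂ) ≠ 0 := by exact_mod_cast h0
  have : gg E F' F G (m + 4) φ = (q0 E F' : ℂ)⁻¹ * (aa F G m φ - q1 E F' φ * gg E F' F G (m + 3) φ -
      q2 E F' φ * gg E F' F G (m + 2) φ - q3 E F' φ * gg E F' F G (m + 1) φ -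
      q4 E F' φ * gg E F' F G m φ) := by
    rw [gg]
  rw [this, mul_inv_cancel_left₀ h0']
  ring

lemma B_mem (E : Conic) : (fun φ => (E.B φ : ℂ)) ∈ TP 1 := by
  have : (fun φ => (E.B φ : ℂ)) = ((2 * E.p1 * E.p0 : ℝ) : ℂ) • (fun φ : ℝ => (Real.cos φ : ℂ)) +
      ((2 * (E.p2 * E.p0 + E.r2 * E.r0) : ℝ) : ℂ) • (fun φ : ℝ => (Real.sin φ : ℂ)) := by
    funext φ
    simp only [Pi.add_apply, Pi.smul_apply, smul_eq_mul, Conic.B]
    push_cast; ring
  rw [this]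
  exact Submodule.add_mem _ (Submodule.smul_mem _ _ cos_mem) (Submodule.smul_mem _ _ sin_mem)

lemma mul_mem' {m n k : ℤ} (h : m + n = k) {f g : ℝ → ℂ} (hf : f ∈ TP m) (hg : g ∈ TP n) :
    (fun φ => f φ * g φ) ∈ TP k := h ▸ mul_mem hf hg

lemma A_mem (E : Conic) : (fun φ => (E.A φ : ℂ)) ∈ TP 2 := by
  have : (fun φ => (E.A φ : ℂ)) =
      ((E.p1 ^ 2 : ℝ) : ℂ) • (fun φ : ℝ => (Real.cos φ : ℂ) * (Real.cos φ : ℂ)) +
      ((2 * E.p1 * E.p2 : ℝ) : ℂ) • (fun φ : ℝ => (Real.cos φ : ℂ) * (Real.sin φ : ℂ)) +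
      ((E.p2 ^ 2 + E.r2 ^ 2 : ℝ) : ℂ) • (fun φ : ℝ => (Real.sin φ : ℂ) * (Real.sin φ : ℂ)) := by
    funext φ
    simp only [Pi.add_apply, Pi.smul_apply, smul_eq_mul, Conic.A]
    push_cast; ring
  rw [this]
  have e : (1 : ℤ) + 1 = 2 := by norm_num
  exact Submodule.add_mem _ (Submodule.add_mem _
    (Submodule.smul_mem _ _ (mul_mem' e cos_mem cos_mem))
    (Submodule.smul_mem _ _ (mul_mem' e cos_mem sin_mem))) (Submodule.smul_mem _ _
      (mul_mem' e sin_mem sin_mem))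

lemma cmul_mem {n : ℤ} (c : ℂ) {f : ℝ → ℂ} (hf : f ∈ TP n) : (fun φ => c * f φ) ∈ TP n := by
  have : (fun φ => c * f φ) = c • f := rfl
  rw [this]; exact Submodule.smul_mem _ _ hf

lemma add_mem' {n : ℤ} {f g : ℝ → ℂ} (hf : f ∈ TP n) (hg : g ∈ TP n) :
    (fun φ => f φ + g φ) ∈ TP n := Submodule.add_mem _ hf hg

lemma sub_mem' {n : ℤ} {f g : ℝ → ℂ} (hf : f ∈ TP n) (hg : g ∈ TP n) :
    (fun φ => f φ - g φ) ∈ TP n := Submodule.sub_mem _ hf hg

lemma q1_mem : (fun φ => (q1 E F' φ : ℂ)) ∈ TP 1 := by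
  have : (fun φ => (q1 E F' φ : ℂ)) = fun φ => (F'.C : ℂ) * (E.B φ : ℂ) + (E.C : ℂ) * (F'.B φ : ℂ) := by
    funext φ; unfold q1; push_cast; ring
  rw [this]
  exact add_mem' (cmul_mem _ (B_mem E)) (cmul_mem _ (B_mem F'))

lemma q2_mem : (fun φ => (q2 E F' φ : ℂ)) ∈ TP 2 := by
  have : (fun φ => (q2 E F' φ : ℂ)) = fun φ => ((F'.C : ℂ) * (E.A φ : ℂ) +
      (E.B φ : ℂ) * (F'.B φ : ℂ)) + (E.C : ℂ) * (F'.A φ : ℂ) := by
    funext φ; unfold q2; push_cast; ring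
  rw [this]
  have e : (1 : ℤ) + 1 = 2 := by norm_num
  exact add_mem' (add_mem' (cmul_mem _ (A_mem E)) (mul_mem' e (B_mem E) (B_mem F')))
    (cmul_mem _ (A_mem F'))

lemma q3_mem : (fun φ => (q3 E F' φ : ℂ)) ∈ TP 3 := by
  have : (fun φ => (q3 E F' φ : ℂ)) = fun φ => (E.A φ : ℂ) * (F'.B φ : ℂ) +
      (F'.A φ : ℂ) * (E.B φ : ℂ) := by
    funext φ; unfold q3; push_cast; ring
  rw [this]
  have e : (2 : ℤ) + 1 = 3 := by norm_num
  exact add_mem' (mul_mem' e (A_mem E) (B_mem F')) (mul_mem' e (A_mem F') (B_mem E))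

lemma q4_mem : (fun φ => (q4 E F' φ : ℂ)) ∈ TP 4 := by
  have : (fun φ => (q4 E F' φ : ℂ)) = fun φ => (E.A φ : ℂ) * (F'.A φ : ℂ) := by
    funext φ; unfold q4; push_cast; ring
  rw [this]
  have e : (2 : ℤ) + 2 = 4 := by norm_num
  exact mul_mem' e (A_mem E) (A_mem F')

lemma gg_mem (m : ℕ) : gg E F' F G m ∈ TP ((m : ℤ) - 4) := by
  induction m using Nat.strong_induction_on with
  | _ m ih =>
    rcases m with _ | _ | _ | _ | m
    · rw [gg]; exact Submodule.zero_mem _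
    · rw [gg]; exact Submodule.zero_mem _
    · rw [gg]; exact Submodule.zero_mem _
    · rw [gg]; exact Submodule.zero_mem _
    · rw [gg]
      have hcast : (((m + 1 + 1 + 1 + 1 : ℕ) : ℤ) - 4) = m := by push_cast; ring
      rw [hcast]
      have c3 : (1 : ℤ) + (((m + 3 : ℕ) : ℤ) - 4) = m := by push_cast; ring
      have c2 : (2 : ℤ) + (((m + 2 : ℕ) : ℤ) - 4) = m := by push_cast; ring
      have c1 : (3 : ℤ) + (((m + 1 : ℕ) : ℤ) - 4) = m := by push_cast; ring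
      have c0 : (4 : ℤ) + ((m : ℤ) - 4) = m := by ring
      have i3 := mul_mem' c3 (q1_mem (E := E) (F' := F')) (ih (m + 3) (by omega))
      have i2 := mul_mem' c2 (q2_mem (E := E) (F' := F')) (ih (m + 2) (by omega))
      have i1 := mul_mem' c1 (q3_mem (E := E) (F' := F')) (ih (m + 1) (by omega))
      have i0 := mul_mem' c0 (q4_mem (E := E) (F' := F')) (ih m (by omega))
      exact cmul_mem _ (sub_mem' (sub_mem' (sub_mem' (sub_mem' (aa_mem F G m) i3) i2) i1) i0)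

/-- coefficients of the quotient are the `gg` -/
lemma gg_eq_coeff (h0 : q0 E F' ≠ 0) {φ : ℝ} {h : ℂ → ℂ} {b : ℕ → ℂ} (hb : Coeffs h b)
    (huh : Coeffs (fun t => (q4 E F' φ * t ^ 4 + q3 E F' φ * t ^ 3 + q2 E F' φ * t ^ 2 +
      q1 E F' φ * t + q0 E F') * h t) (fun k => aa F G k φ)) (m : ℕ) :
    gg E F' F G m φ = sh (sh (sh (sh b))) m := by
  have h1 := hb.shift
  have h2 := h1.shift
  have h3 := h2.shift
  have h4 := h3.shift
  have hsum := ((((h4.smul (q4 E F' φ)).add (h3.smul (q3 E F' φ))).add (h2.smul (q2 E F' φ))).add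
    (h1.smul (q1 E F' φ))).add (hb.smul (q0 E F'))
  have hsum' : Coeffs (fun t => (q4 E F' φ * t ^ 4 + q3 E F' φ * t ^ 3 + q2 E F' φ * t ^ 2 +
      q1 E F' φ * t + q0 E F') * h t) (fun k => q4 E F' φ * sh (sh (sh (sh b))) k +
      q3 E F' φ * sh (sh (sh b)) k + q2 E F' φ * sh (sh b) k + q1 E F' φ * sh b k +
      q0 E F' * b k) := by
    intro t
    have h5 := hsum t
    convert h5 using 1
    ring
  have heq : (fun k => aa F G k φ) = _ := huh.unique hsum'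
  have h0' : (q0 E F' : ℂ) ≠ 0 := by exact_mod_cast h0
  have hrel : ∀ k, aa F G k φ = q4 E F' φ * sh (sh (sh (sh b))) k + q3 E F' φ * sh (sh (sh b)) k +
      q2 E F' φ * sh (sh b) k + q1 E F' φ * sh b k + q0 E F' * b k := fun k => congrFun heq k
  induction m using Nat.strong_induction_on with
  | _ m ih =>
    rcases m with _ | _ | _ | _ | m
    · rw [gg]; rfl
    · rw [gg]; rfl
    · rw [gg]; rfl
    · rw [gg]; rfl
    · have e := gg_rel (F := F) (G := G) h0 m φ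
      rw [ih (m + 3) (by omega), ih (m + 2) (by omega), ih (m + 1) (by omega), ih m (by omega),
        hrel m] at e
      have s3 : sh (sh (sh (sh b))) (m + 3) = sh b m := rfl
      have s2 : sh (sh (sh (sh b))) (m + 2) = sh (sh b) m := rfl
      have s1 : sh (sh (sh (sh b))) (m + 1) = sh (sh (sh b)) m := rfl
      have s4 : sh (sh (sh (sh b))) (m + 1 + 1 + 1 + 1) = b m := rfl
      rw [s3, s2, s1] at e
      rw [s4]
      have e' : (q0 E F' : ℂ) * gg E F' F G (m + 4) φ = q0 E F' * b m := by linear_combination e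
      exact mul_left_cancel₀ h0' e'

lemma quartic (φ : ℝ) (t : ℂ) : (q4 E F' φ * t ^ 4 + q3 E F' φ * t ^ 3 + q2 E F' φ * t ^ 2 +
      q1 E F' φ * t + q0 E F' : ℂ) =
    (E.A φ * t ^ 2 + E.B φ * t + E.C) * (F'.A φ * t ^ 2 + F'.B φ * t + F'.C) := by
  unfold q4 q3 q2 q1 q0
  push_cast; ring

/-- uniform bounds on the coefficients -/
lemma coeff_bounds (E F' : Conic) : ∃ c K : ℝ, 0 < c ∧ 0 < K ∧ (∀ φ, c ≤ q4 E F' φ) ∧
    |q0 E F'| ≤ K ∧ (∀ φ, |q1 E F' φ| ≤ K) ∧ (∀ φ, |q2 E F' φ| ≤ K) ∧ (∀ φ, |q3 E F' φ| ≤ K) := by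
  obtain ⟨c1, hc1, h1⟩ := E.A_lower
  obtain ⟨c2, hc2, h2⟩ := F'.A_lower
  set a1 := (|E.p1| + |E.p2|) ^ 2 + |E.r2| ^ 2 with ha1
  set a2 := (|F'.p1| + |F'.p2|) ^ 2 + |F'.r2| ^ 2 with ha2
  set b1 := 2 * ((|E.p1| + |E.p2|) * |E.p0| + |E.r2| * |E.r0|) with hb1
  set b2 := 2 * ((|F'.p1| + |F'.p2|) * |F'.p0| + |F'.r2| * |F'.r0|) with hb2
  have A1 : ∀ φ, |E.A φ| ≤ a1 := fun φ => by rw [abs_of_pos (E.A_pos φ)]; exact E.A_le φ
  have A2 : ∀ φ, |F'.A φ| ≤ a2 := fun φ => by rw [abs_of_pos (F'.A_pos φ)]; exact F'.A_le φ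
  have B1 := E.B_le
  have B2 := F'.B_le
  rw [← hb1] at B1
  rw [← hb2] at B2
  have ha1' : 0 ≤ a1 := by positivity
  have ha2' : 0 ≤ a2 := by positivity
  have hb1' : 0 ≤ b1 := by positivity
  have hb2' : 0 ≤ b2 := by positivity
  have z1 := abs_nonneg E.C
  have z2 := abs_nonneg F'.C
  set K := |E.C| * |F'.C| + (b1 * |F'.C| + |E.C| * b2) + (a1 * |F'.C| + b1 * b2 + |E.C| * a2) +
    (a1 * b2 + b1 * a2) + 1 with hK
  have k0 : 0 ≤ |E.C| * |F'.C| := by positivity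
  have k1 : 0 ≤ b1 * |F'.C| + |E.C| * b2 := by positivity
  have k2 : 0 ≤ a1 * |F'.C| + b1 * b2 + |E.C| * a2 := by positivity
  have k3 : 0 ≤ a1 * b2 + b1 * a2 := by positivity
  refine ⟨c1 * c2, K, by positivity, by linarith, fun φ => ?_, ?_, fun φ => ?_, fun φ => ?_,
    fun φ => ?_⟩
  · unfold q4
    exact mul_le_mul (h1 φ) (h2 φ) hc2.le (E.A_pos φ).le
  · unfold q0
    rw [abs_mul]; linarith
  · unfold q1
    have : |E.B φ * F'.C + E.C * F'.B φ| ≤ b1 * |F'.C| + |E.C| * b2 := by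
      refine (abs_add_le _ _).trans ?_
      rw [abs_mul, abs_mul]
      have := B1 φ
      have := B2 φ
      gcongr
    linarith
  · unfold q2
    have : |E.A φ * F'.C + E.B φ * F'.B φ + E.C * F'.A φ| ≤
        a1 * |F'.C| + b1 * b2 + |E.C| * a2 := by
      refine (abs_add_le _ _).trans (add_le_add ((abs_add_le _ _).trans ?_) ?_)
      · rw [abs_mul, abs_mul]
        have := B1 φ
        have := B2 φ
        have := A1 φ
        gcongr
      · rw [abs_mul]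
        have := A2 φ
        gcongr
    linarith
  · unfold q3
    have : |E.A φ * F'.B φ + E.B φ * F'.A φ| ≤ a1 * b2 + b1 * a2 := by
      refine (abs_add_le _ _).trans ?_
      rw [abs_mul, abs_mul]
      have := B1 φ
      have := B2 φ
      have := A1 φ
      have := A2 φ
      gcongr
    linarith

/-- the decay of the coefficients -/
lemma gg_decay (hF : Differentiable ℂ F) (hG : Differentiable ℂ G) (hE0 : 1 < E.r0 ^ 2)
    (hF0 : 1 < F'.r0 ^ 2) (hne : ∃ x y : ℝ, ¬ (E.Qr x y = 0 ↔ F'.Qr x y = 0))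
    (hE : ∀ x y : ℝ, E.Qr x y = 0 → V F G (x + Complex.I * y) = 0)
    (hF' : ∀ x y : ℝ, F'.Qr x y = 0 → V F G (x + Complex.I * y) = 0)
    {c K : ℝ} (hc : 0 < c) (hK : 0 < K) (h4 : ∀ φ, c ≤ q4 E F' φ) (h0 : |q0 E F'| ≤ K)
    (h1 : ∀ φ, |q1 E F' φ| ≤ K) (h2 : ∀ φ, |q2 E F' φ| ≤ K) (h3 : ∀ φ, |q3 E F' φ| ≤ K)
    {ρ : ℝ} (hρ1 : 1 ≤ ρ) (hρ : (4 * K + 1) / c ≤ ρ) :
    ∃ M : ℝ, ∀ m φ, ‖gg E F' F G m φ‖ ≤ M / ρ ^ m := by
  have hρ0 : 0 < ρ := by linarith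
  have hq0 : q0 E F' ≠ 0 := by
    have e1 : 0 < E.C := by unfold Conic.C; nlinarith [sq_nonneg E.p0]
    have e2 : 0 < F'.C := by unfold Conic.C; nlinarith [sq_nonneg F'.p0]
    unfold q0; positivity
  obtain ⟨MF, hMF⟩ := (isCompact_closedBall (0 : ℂ) ρ).exists_bound_of_continuousOn
    hF.continuous.continuousOn
  obtain ⟨MG, hMG⟩ := (isCompact_closedBall (0 : ℂ) ρ).exists_bound_of_continuousOn
    hG.continuous.continuousOn
  have hMF0 : 0 ≤ MF := (norm_nonneg _).trans (hMF 0 (by simp [hρ0.le]))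
  have hMG0 : 0 ≤ MG := (norm_nonneg _).trans (hMG 0 (by simp [hρ0.le]))
  set M' : ℝ := ρ * MF + MG with hM'
  have hM'0 : 0 ≤ M' := by positivity
  -- bound of `uu` on the circle
  have huu : ∀ φ (t : ℂ), ‖t‖ = ρ → ‖uu F G φ t‖ ≤ M' := by
    intro φ t ht
    rw [uu_eq]
    have n1 : ‖ch 1 φ * t‖ = ρ := by rw [norm_mul, norm_ch, one_mul, ht]
    have n2 : ‖ch (-1) φ * t‖ = ρ := by rw [norm_mul, norm_ch, one_mul, ht]
    have e1 : ‖F (ch 1 φ * t)‖ ≤ MF := hMF _ (mem_closedBall_zero_iff.2 n1.le)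
    have e2 : ‖cs F (ch (-1) φ * t)‖ ≤ MF := by
      unfold cs
      rw [norm_star]
      exact hMF _ (by rw [mem_closedBall_zero_iff, norm_star, n2])
    have e3 : ‖G (ch 1 φ * t)‖ ≤ MG := hMG _ (mem_closedBall_zero_iff.2 n1.le)
    have e4 : ‖cs G (ch (-1) φ * t)‖ ≤ MG := by
      unfold cs
      rw [norm_star]
      exact hMG _ (by rw [mem_closedBall_zero_iff, norm_star, n2])
    rw [norm_mul]
    have e5 : ‖ch (-1) φ * (t * F (ch 1 φ * t)) + ch 1 φ * (t * cs F (ch (-1) φ * t)) +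
      G (ch 1 φ * t) + cs G (ch (-1) φ * t)‖ ≤ ρ * MF + ρ * MF + MG + MG := by
      refine (norm_add_le _ _).trans (add_le_add ((norm_add_le _ _).trans (add_le_add
        ((norm_add_le _ _).trans (add_le_add ?_ ?_)) e3)) e4)
      · rw [norm_mul, norm_mul, norm_ch, one_mul, ht]; gcongr
      · rw [norm_mul, norm_mul, norm_ch, one_mul, ht]; gcongr
    have e6 : ‖(1 / 2 : ℂ)‖ = 1 / 2 := by simp
    rw [e6, hM']
    linarith
  -- lower bound of the quartic on the circle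
  have hquart : ∀ φ (t : ℂ), ‖t‖ = ρ → 1 ≤ ‖(q4 E F' φ * t ^ 4 + q3 E F' φ * t ^ 3 +
      q2 E F' φ * t ^ 2 + q1 E F' φ * t + q0 E F' : ℂ)‖ := by
    intro φ t ht
    have n4 : ‖(q4 E F' φ * t ^ 4 : ℂ)‖ = q4 E F' φ * ρ ^ 4 := by
      rw [norm_mul, norm_pow, ht, Complex.norm_real, Real.norm_of_nonneg (hc.le.trans (h4 φ))]
    have n3 : ‖(q3 E F' φ * t ^ 3 : ℂ)‖ ≤ K * ρ ^ 3 := by
      rw [norm_mul, norm_pow, ht, Complex.norm_real, Real.norm_eq_abs]
      have := h3 φ; gcongr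
    have n2 : ‖(q2 E F' φ * t ^ 2 : ℂ)‖ ≤ K * ρ ^ 3 := by
      rw [norm_mul, norm_pow, ht, Complex.norm_real, Real.norm_eq_abs]
      have := h2 φ
      have : ρ ^ 2 ≤ ρ ^ 3 := pow_le_pow_right₀ hρ1 (by norm_num)
      gcongr
    have n1 : ‖(q1 E F' φ * t : ℂ)‖ ≤ K * ρ ^ 3 := by
      rw [norm_mul, ht, Complex.norm_real, Real.norm_eq_abs]
      have := h1 φ
      have : ρ ≤ ρ ^ 3 := le_self_pow₀ hρ1 (by norm_num)
      gcongr
    have n0 : ‖(q0 E F' : ℂ)‖ ≤ K * ρ ^ 3 := by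
      rw [Complex.norm_real, Real.norm_eq_abs]
      have : (1 : ℝ) ≤ ρ ^ 3 := one_le_pow₀ hρ1
      nlinarith
    have hsplit : ‖(q4 E F' φ * t ^ 4 : ℂ)‖ ≤ ‖(q4 E F' φ * t ^ 4 + q3 E F' φ * t ^ 3 +
      q2 E F' φ * t ^ 2 + q1 E F' φ * t + q0 E F' : ℂ)‖ + 4 * (K * ρ ^ 3) := by
      set x : ℂ := (q4 E F' φ * t ^ 4 : ℂ) with hx
      set y : ℂ := (q3 E F' φ * t ^ 3 + q2 E F' φ * t ^ 2 + q1 E F' φ * t + q0 E F' : ℂ) with hy
      have hxy : (x + q3 E F' φ * t ^ 3 + q2 E F' φ * t ^ 2 + q1 E F' φ * t + q0 E F' : ℂ) =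
        x + y := by rw [hy]; ring
      rw [hxy]
      have e1 : ‖y‖ ≤ 4 * (K * ρ ^ 3) := by
        have := (norm_add_le (q3 E F' φ * t ^ 3 + q2 E F' φ * t ^ 2 + q1 E F' φ * t : ℂ)
          (q0 E F')).trans (add_le_add ((norm_add_le _ _).trans (add_le_add
          ((norm_add_le _ _).trans (add_le_add n3 n2)) n1)) n0)
        linarith
      have e2 : ‖x‖ ≤ ‖x + y‖ + ‖y‖ := by
        have := norm_sub_le (x + y) y
        rwa [add_sub_cancel_right] at this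
      linarith
    rw [n4] at hsplit
    have e1 : c * ρ ^ 4 ≤ q4 E F' φ * ρ ^ 4 := by have := h4 φ; gcongr
    rw [div_le_iff₀ hc] at hρ
    have e2 : (1 : ℝ) ≤ ρ ^ 3 := one_le_pow₀ hρ1
    have e3 : (4 * K + 1) * ρ ^ 3 ≤ (ρ * c) * ρ ^ 3 := by gcongr
    have e4 : (ρ * c) * ρ ^ 3 = c * ρ ^ 4 := by ring
    linarith
  -- good directions
  have hgood : ∀ φ ∈ goodDir E F', ∀ m, ‖gg E F' F G m φ‖ ≤ (M' * ρ ^ 4) / ρ ^ m := by
    intro φ hφ m
    obtain ⟨s, hs, hprod⟩ := four_roots E F' hφ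
    have hudiff : Differentiable ℂ (uu F G φ) := by
      have h1' := hF.comp (show Differentiable ℂ fun t : ℂ => ch 1 φ * t by fun_prop)
      have h2' := (cs_diff hF).comp (show Differentiable ℂ fun t : ℂ => ch (-1) φ * t by fun_prop)
      have h3' := hG.comp (show Differentiable ℂ fun t : ℂ => ch 1 φ * t by fun_prop)
      have h4' := (cs_diff hG).comp (show Differentiable ℂ fun t : ℂ => ch (-1) φ * t by fun_prop)
      have heq : uu F G φ = fun t => (1 / 2 : ℂ) *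
          (ch (-1) φ * (t * F (ch 1 φ * t)) + ch 1 φ * (t * cs F (ch (-1) φ * t)) +
          G (ch 1 φ * t) + cs G (ch (-1) φ * t)) := funext fun t => uu_eq F G φ t
      rw [heq]
      exact ((((differentiable_id.mul h1').const_mul _).add
        ((differentiable_id.mul h2').const_mul _)).add h3' |>.add h4').const_mul _
    have hroots : ∀ r ∈ s, uu F G φ r = 0 := by
      intro r hr
      unfold uu
      rcases hs r hr with h | h
      · exact vanish hF hG E hE _ _ (by rw [Conic.Q_polar]; exact h)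
      · exact vanish hF hG F' hF' _ _ (by rw [Conic.Q_polar]; exact h)
    obtain ⟨h, hh, huh⟩ := exists_div hudiff s hroots
    have hA : (E.A φ * F'.A φ : ℂ) ≠ 0 := by
      have := E.A_pos φ
      have := F'.A_pos φ
      exact mul_ne_zero (by exact_mod_cast (E.A_pos φ).ne') (by exact_mod_cast (F'.A_pos φ).ne')
    set H : ℂ → ℂ := fun t => (E.A φ * F'.A φ : ℂ)⁻¹ * h t with hH
    have hHd : Differentiable ℂ H := hh.const_mul _
    have hfac : ∀ t, uu F G φ t = (q4 E F' φ * t ^ 4 + q3 E F' φ * t ^ 3 +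
      q2 E F' φ * t ^ 2 + q1 E F' φ * t + q0 E F' : ℂ) * H t := by
      intro t
      rw [quartic, hprod t, huh t, hH]
      simp only
      rw [mul_mul_mul_comm, mul_inv_cancel₀ hA, one_mul]
    have hco : Coeffs (fun t => (q4 E F' φ * t ^ 4 + q3 E F' φ * t ^ 3 + q2 E F' φ * t ^ 2 +
      q1 E F' φ * t + q0 E F') * H t) (fun k => aa F G k φ) := by
      intro t
      simp only
      rw [← hfac t]
      exact uu_coeffs hF hG φ t
    have hgg := gg_eq_coeff hq0 (coeffs_tc hHd) hco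
    have hHb : ∀ t : ℂ, ‖t‖ = ρ → ‖H t‖ ≤ M' := by
      intro t ht
      have e1 := huu φ t ht
      rw [hfac t, norm_mul] at e1
      have e2 := hquart φ t ht
      calc ‖H t‖ = 1 * ‖H t‖ := by ring
        _ ≤ _ := mul_le_mul_of_nonneg_right e2 (norm_nonneg _)
        _ ≤ M' := e1
    have hb := tc_bound hHd hρ0 hHb
    rw [hgg m]
    rcases m with _ | _ | _ | _ | m
    · simp only [sh, norm_zero]; positivity
    · simp only [sh, norm_zero]; positivity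
    · simp only [sh, norm_zero]; positivity
    · simp only [sh, norm_zero]; positivity
    · have e1 : sh (sh (sh (sh (tc H)))) (m + 1 + 1 + 1 + 1) = tc H m := rfl
      rw [e1]
      refine (hb m).trans (le_of_eq ?_)
      rw [show m + 1 + 1 + 1 + 1 = m + 4 by ring, pow_add]
      field_simp
  refine ⟨M' * ρ ^ 4, fun m φ => ?_⟩
  have hdense := dense_good E F' hE0 hF0 hne
  have hcl : IsClosed {φ : ℝ | ‖gg E F' F G m φ‖ ≤ (M' * ρ ^ 4) / ρ ^ m} :=
    isClosed_le (continuous_of_mem (gg_mem m)).norm continuous_const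
  exact (hcl.closure_subset_iff.2 fun φ hφ => hgood φ hφ m) (hdense φ)

end Pool.Agent.R221.Bi
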