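import Pool.Agent.R221.Bi.Growth

set_option autoImplicit false

open Filter Topology Set MeasureTheory

namespace Pool.Agent.R221.Bi

/-- a sequence with `I m ≤ κ ∑ I (m+j)` and fast decay vanishes -/
lemma seq_zero {I : ℕ → ℝ} (hI : ∀ m, 0 ≤ I m) {κ r D : ℝ} (hκ : 0 < κ)
    (h : ∀ m, I m ≤ κ * (I (m + 1) + I (m + 2) + I (m + 3) + I (m + 4))) (hr : 8 * κ ≤ r)
    (hr1 : 1 ≤ r) (hD : ∀ m, I m ≤ D / r ^ m) (m : ℕ) : I m = 0 := by
  have hr0 : 0 < r := by linarith
  have hD0 : 0 ≤ D := by have := (hI 0).trans (hD 0); simpa using this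
  have key : ∀ n m, I m ≤ D / 2 ^ n / r ^ m := by
    intro n
    induction n with
    | zero => intro m; simpa using hD m
    | succ n ih =>
      intro m
      set D' := D / 2 ^ n with hD'
      have hD'0 : 0 ≤ D' := by positivity
      have hj : ∀ j, 1 ≤ j → I (m + j) ≤ D' / r ^ m / r := by
        intro j hj
        refine (ih (m + j)).trans ?_
        have e : D' / r ^ m / r = D' / r ^ (m + 1) := by rw [div_div, ← pow_succ]
        rw [e]
        apply div_le_div_of_nonneg_left hD'0 (by positivity)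
        exact pow_le_pow_right₀ hr1 (by omega)
      have h1 := h m
      have h2 : κ * (I (m + 1) + I (m + 2) + I (m + 3) + I (m + 4)) ≤
          κ * (4 * (D' / r ^ m / r)) := by
        have e1 := hj 1 le_rfl
        have e2 := hj 2 (by norm_num)
        have e3 := hj 3 (by norm_num)
        have e4 := hj 4 (by norm_num)
        gcongr
        linarith
      refine (h1.trans h2).trans ?_
      have h3 : κ * (4 * (D' / r ^ m / r)) = (4 * κ / r) * (D' / r ^ m) := by field_simp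
      rw [h3]
      have h4 : 4 * κ / r ≤ 1 / 2 := by
        rw [div_le_iff₀ hr0]; linarith
      have h5 : D / 2 ^ (n + 1) / r ^ m = (1 / 2) * (D' / r ^ m) := by
        rw [hD', pow_succ]; field_simp
      rw [h5]
      gcongr
  have hlim : Tendsto (fun n : ℕ => D / 2 ^ n / r ^ m) atTop (𝓝 0) := by
    have h1 : Tendsto (fun n : ℕ => (1 / 2 : ℝ) ^ n) atTop (𝓝 0) :=
      tendsto_pow_atTop_nhds_zero_of_lt_one (by norm_num) (by norm_num)
    have h2 := h1.const_mul (D / r ^ m)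
    rw [mul_zero] at h2
    refine h2.congr fun n => ?_
    rw [div_pow, one_pow]; field_simp
  exact le_antisymm (ge_of_tendsto' hlim fun n => key n m) (hI m)

variable {E F' : Conic} {F G : ℂ → ℂ}

/-- the `L²` norm of `gg m` -/
noncomputable def II (E F' : Conic) (F G : ℂ → ℂ) (m : ℕ) : ℝ :=
  ∫ φ in (0 : ℝ)..2 * Real.pi, ‖gg E F' F G m φ‖ ^ 2

lemma gg_cont (m : ℕ) : Continuous (gg E F' F G m) := continuous_of_mem (gg_mem m)

lemma II_nonneg (m : ℕ) : 0 ≤ II E F' F G m :=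
  intervalIntegral.integral_nonneg (by have := Real.pi_pos; positivity) fun _ _ => sq_nonneg _

lemma ineq (h00 : q0 E F' ≠ 0) {c K : ℝ} (hc : 0 < c) (hK : 0 < K) (h4 : ∀ φ, c ≤ q4 E F' φ)
    (h0 : |q0 E F'| ≤ K) (h1 : ∀ φ, |q1 E F' φ| ≤ K) (h2 : ∀ φ, |q2 E F' φ| ≤ K)
    (h3 : ∀ φ, |q3 E F' φ| ≤ K) (m : ℕ) :
    II E F' F G m ≤ (4 * K ^ 2 / c ^ 2) * (II E F' F G (m + 1) + II E F' F G (m + 2) +
      II E F' F G (m + 3) + II E F' F G (m + 4)) := by
  set g := gg E F' F G with hg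
  have hgc : ∀ j, Continuous fun φ => ‖g j φ‖ ^ 2 := fun j => (gg_cont j).norm.pow 2
  have hac : Continuous fun φ => aa F G m φ * star (g m φ) :=
    (continuous_of_mem (aa_mem F G m)).mul (continuous_of_mem (star_mem (gg_mem m)))
  -- pointwise
  have hpt : ∀ φ, (c / 2) * ‖g m φ‖ ^ 2 ≤ (aa F G m φ * star (g m φ)).re +
      (2 * K ^ 2 / c) * (‖g (m + 1) φ‖ ^ 2 + ‖g (m + 2) φ‖ ^ 2 + ‖g (m + 3) φ‖ ^ 2 +
        ‖g (m + 4) φ‖ ^ 2) := by
    intro φ
    have hrel := gg_rel (F := F) (G := G) h00 m φ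
    have e1 : (q4 E F' φ * ‖g m φ‖ ^ 2 : ℝ) = (aa F G m φ * star (g m φ)).re -
        ((q0 E F' * g (m + 4) φ + q1 E F' φ * g (m + 3) φ + q2 E F' φ * g (m + 2) φ +
          q3 E F' φ * g (m + 1) φ) * star (g m φ)).re := by
      rw [← Complex.sub_re, ← sub_mul, ← hrel]
      have : ((q0 E F' : ℂ) * gg E F' F G (m + 4) φ + q1 E F' φ * gg E F' F G (m + 3) φ +
        q2 E F' φ * gg E F' F G (m + 2) φ + q3 E F' φ * gg E F' F G (m + 1) φ +
        q4 E F' φ * gg E F' F G m φ - (q0 E F' * g (m + 4) φ + q1 E F' φ * g (m + 3) φ +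
          q2 E F' φ * g (m + 2) φ + q3 E F' φ * g (m + 1) φ)) * star (g m φ) =
          q4 E F' φ * (g m φ * star (g m φ)) := by rw [hg]; ring
      rw [this, Complex.star_def, Complex.mul_conj, ← Complex.ofReal_mul, Complex.ofReal_re,
        Complex.normSq_eq_norm_sq]
    have e2 : -((q0 E F' * g (m + 4) φ + q1 E F' φ * g (m + 3) φ + q2 E F' φ * g (m + 2) φ +
          q3 E F' φ * g (m + 1) φ) * star (g m φ)).re ≤
        K * (‖g (m + 1) φ‖ + ‖g (m + 2) φ‖ + ‖g (m + 3) φ‖ + ‖g (m + 4) φ‖) * ‖g m φ‖ := by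
      refine (neg_le_abs _).trans ((Complex.abs_re_le_norm _).trans ?_)
      rw [norm_mul, norm_star]
      gcongr
      have n0 : ‖(q0 E F' * g (m + 4) φ : ℂ)‖ ≤ K * ‖g (m + 4) φ‖ := by
        rw [norm_mul, Complex.norm_real, Real.norm_eq_abs]; gcongr
      have n1 : ‖(q1 E F' φ * g (m + 3) φ : ℂ)‖ ≤ K * ‖g (m + 3) φ‖ := by
        rw [norm_mul, Complex.norm_real, Real.norm_eq_abs]; have := h1 φ; gcongr
      have n2 : ‖(q2 E F' φ * g (m + 2) φ : ℂ)‖ ≤ K * ‖g (m + 2) φ‖ := by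
        rw [norm_mul, Complex.norm_real, Real.norm_eq_abs]; have := h2 φ; gcongr
      have n3 : ‖(q3 E F' φ * g (m + 1) φ : ℂ)‖ ≤ K * ‖g (m + 1) φ‖ := by
        rw [norm_mul, Complex.norm_real, Real.norm_eq_abs]; have := h3 φ; gcongr
      have := (norm_add_le (q0 E F' * g (m + 4) φ + q1 E F' φ * g (m + 3) φ +
        q2 E F' φ * g (m + 2) φ : ℂ) (q3 E F' φ * g (m + 1) φ)).trans (add_le_add
        ((norm_add_le _ _).trans (add_le_add ((norm_add_le _ _).trans (add_le_add n0 n1)) n2)) n3)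
      linarith
    have e3 : ∀ x y : ℝ, K * x * y ≤ (c / 8) * y ^ 2 + (2 * K ^ 2 / c) * x ^ 2 := by
      intro x y
      have : (c / 8) * y ^ 2 + (2 * K ^ 2 / c) * x ^ 2 - K * x * y =
        (c * y - 4 * K * x) ^ 2 / (8 * c) := by field_simp; ring
      have h5 : 0 ≤ (c * y - 4 * K * x) ^ 2 / (8 * c) := by positivity
      linarith
    have f1 := e3 ‖g (m + 1) φ‖ ‖g m φ‖
    have f2 := e3 ‖g (m + 2) φ‖ ‖g m φ‖
    have f3 := e3 ‖g (m + 3) φ‖ ‖g m φ‖
    have f4 := e3 ‖g (m + 4) φ‖ ‖g m φ‖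
    have f5 : c * ‖g m φ‖ ^ 2 ≤ q4 E F' φ * ‖g m φ‖ ^ 2 := by have := h4 φ; gcongr
    nlinarith
  -- integrate
  have hi : ∀ j, IntervalIntegrable (fun φ => ‖g j φ‖ ^ 2) volume 0 (2 * Real.pi) := fun j =>
    (hgc j).intervalIntegrable _ _
  have hre : ∫ φ in (0 : ℝ)..2 * Real.pi, (aa F G m φ * star (g m φ)).re = 0 := by
    have h5 := aa_orth F G m (star_mem (gg_mem (E := E) (F' := F') (F := F) (G := G) m))
    have h6 := intervalIntegral.intervalIntegral_re (hac.intervalIntegrable (μ := volume) 0 (2 * Real.pi))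
    rw [h5] at h6
    simpa using h6
  have hint : ∫ φ in (0 : ℝ)..2 * Real.pi, (c / 2) * ‖g m φ‖ ^ 2 ≤
      ∫ φ in (0 : ℝ)..2 * Real.pi, ((aa F G m φ * star (g m φ)).re +
      (2 * K ^ 2 / c) * (‖g (m + 1) φ‖ ^ 2 + ‖g (m + 2) φ‖ ^ 2 + ‖g (m + 3) φ‖ ^ 2 +
        ‖g (m + 4) φ‖ ^ 2)) := by
    apply intervalIntegral.integral_mono_on (by have := Real.pi_pos; positivity)
    · exact ((hi m).const_mul _)
    · exact ((Complex.continuous_re.comp hac).intervalIntegrable _ _).add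
        (((((hi (m + 1)).add (hi (m + 2))).add (hi (m + 3))).add (hi (m + 4))).const_mul _)
    · exact fun φ _ => hpt φ
  have hre_i : IntervalIntegrable (fun φ => (aa F G m φ * star (g m φ)).re) volume 0
      (2 * Real.pi) := (Complex.continuous_re.comp hac).intervalIntegrable _ _
  rw [intervalIntegral.integral_const_mul, intervalIntegral.integral_add hre_i
    (((((hi (m + 1)).add (hi (m + 2))).add (hi (m + 3))).add (hi (m + 4))).const_mul _), hre,
    zero_add, intervalIntegral.integral_const_mul,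
    intervalIntegral.integral_add (((hi (m + 1)).add (hi (m + 2))).add (hi (m + 3))) (hi (m + 4)),
    intervalIntegral.integral_add ((hi (m + 1)).add (hi (m + 2))) (hi (m + 3)),
    intervalIntegral.integral_add (hi (m + 1)) (hi (m + 2))] at hint
  change (c / 2) * II E F' F G m ≤ (2 * K ^ 2 / c) * (II E F' F G (m + 1) + II E F' F G (m + 2) +
      II E F' F G (m + 3) + II E F' F G (m + 4)) at hint
  set S := II E F' F G (m + 1) + II E F' F G (m + 2) + II E F' F G (m + 3) + II E F' F G (m + 4)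
  have h7 : (4 * K ^ 2 / c ^ 2) * S = (2 / c) * ((2 * K ^ 2 / c) * S) := by field_simp; ring
  rw [h7]
  calc II E F' F G m = (2 / c) * ((c / 2) * II E F' F G m) := by field_simp
    _ ≤ _ := by gcongr

/-- the core statement, with the origin in general position -/
lemma core (hF : Differentiable ℂ F) (hG : Differentiable ℂ G) (hE0 : 1 < E.r0 ^ 2)
    (hF0 : 1 < F'.r0 ^ 2) (hne : ∃ x y : ℝ, ¬ (E.Qr x y = 0 ↔ F'.Qr x y = 0))
    (hE : ∀ x y : ℝ, E.Qr x y = 0 → V F G (x + Complex.I * y) = 0)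
    (hF' : ∀ x y : ℝ, F'.Qr x y = 0 → V F G (x + Complex.I * y) = 0) (z : ℂ) : V F G z = 0 := by
  obtain ⟨c, K, hc, hK, h4, h0, h1, h2, h3⟩ := coeff_bounds E F'
  have hq0 : q0 E F' ≠ 0 := by
    have e1 : 0 < E.C := by unfold Conic.C; nlinarith [sq_nonneg E.p0]
    have e2 : 0 < F'.C := by unfold Conic.C; nlinarith [sq_nonneg F'.p0]
    unfold q0; positivity
  have hineq := ineq (F := F) (G := G) hq0 hc hK h4 h0 h1 h2 h3
  set κ := 4 * K ^ 2 / c ^ 2 with hκ
  have hκ0 : 0 < κ := by positivity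
  set ρ := max (max 1 ((4 * K + 1) / c)) (8 * κ) with hρ
  have hρ1 : 1 ≤ ρ := (le_max_left _ _).trans (le_max_left _ _)
  have hρ2 : (4 * K + 1) / c ≤ ρ := (le_max_right _ _).trans (le_max_left _ _)
  have hρ3 : 8 * κ ≤ ρ := le_max_right _ _
  obtain ⟨M, hM⟩ := gg_decay hF hG hE0 hF0 hne hE hF' hc hK h4 h0 h1 h2 h3 hρ1 hρ2
  have hρ0 : 0 < ρ := by linarith
  have hdecay : ∀ m, II E F' F G m ≤ (2 * Real.pi * M ^ 2) / (ρ ^ 2) ^ m := by
    intro m
    have e1 : II E F' F G m ≤ ∫ φ in (0 : ℝ)..2 * Real.pi, (M / ρ ^ m) ^ 2 := by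
      apply intervalIntegral.integral_mono_on (by have := Real.pi_pos; positivity)
      · exact ((gg_cont m).norm.pow 2).intervalIntegrable _ _
      · exact intervalIntegrable_const
      · intro φ _
        have := hM m φ
        gcongr
    rw [intervalIntegral.integral_const, sub_zero, smul_eq_mul] at e1
    refine e1.trans (le_of_eq ?_)
    rw [div_pow, ← pow_mul, ← pow_mul, mul_comm m 2]
    ring
  have hI0 := seq_zero (I := II E F' F G) II_nonneg hκ0 hineq
    (r := ρ ^ 2) (hρ3.trans (le_self_pow₀ hρ1 (by norm_num))) (one_le_pow₀ hρ1) hdecay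
  -- all quotient coefficients vanish
  have hgg : ∀ m, ∀ φ ∈ Icc (0 : ℝ) (2 * Real.pi), gg E F' F G m φ = 0 := by
    intro m φ hφ
    by_contra hne0
    have hpos : 0 < ∫ φ in (0 : ℝ)..2 * Real.pi, ‖gg E F' F G m φ‖ ^ 2 := by
      apply intervalIntegral.integral_pos (by have := Real.pi_pos; positivity)
        ((gg_cont m).norm.pow 2).continuousOn (fun _ _ => sq_nonneg _)
      exact ⟨φ, hφ, pow_pos (norm_pos_iff.2 hne0) 2⟩
    exact hpos.ne' (hI0 m)
  -- conclude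
  obtain ⟨φ, hφ, hzφ⟩ : ∃ φ ∈ Icc (0 : ℝ) (2 * Real.pi), z = ‖z‖ * ch 1 φ := by
    have hpi := Real.pi_pos
    rcases le_or_gt 0 z.arg with h | h
    · refine ⟨z.arg, ⟨h, by linarith [Complex.arg_le_pi z]⟩, ?_⟩
      rw [ch_one]
      have := Complex.norm_mul_exp_arg_mul_I z
      rw [Complex.exp_mul_I] at this
      calc z = _ := this.symm
        _ = _ := by push_cast; ring
    · refine ⟨z.arg + 2 * Real.pi, ⟨by linarith [Complex.neg_pi_lt_arg z], by linarith⟩, ?_⟩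
      rw [ch_one, Real.cos_add_two_pi, Real.sin_add_two_pi]
      have := Complex.norm_mul_exp_arg_mul_I z
      rw [Complex.exp_mul_I] at this
      calc z = _ := this.symm
        _ = _ := by push_cast; ring
  have haa : ∀ m, aa F G m φ = 0 := by
    intro m
    rw [← gg_rel (E := E) (F' := F') hq0 m φ, hgg (m + 4) φ hφ, hgg (m + 3) φ hφ,
      hgg (m + 2) φ hφ, hgg (m + 1) φ hφ, hgg m φ hφ]
    ring
  have huu : uu F G φ ‖z‖ = 0 := by
    have h5 := uu_coeffs hF hG φ (‖z‖ : ℂ)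
    simp only [haa, zero_mul] at h5
    exact h5.unique hasSum_zero
  have hU : uu F G φ ‖z‖ = (V F G z : ℂ) := by
    unfold uu
    have e1 : (‖z‖ : ℂ) * Real.cos φ = ((‖z‖ * Real.cos φ : ℝ) : ℂ) := by push_cast; ring
    have e2 : (‖z‖ : ℂ) * Real.sin φ = ((‖z‖ * Real.sin φ : ℝ) : ℂ) := by push_cast; ring
    rw [e1, e2, U_real]
    congr 2
    conv_rhs => rw [hzφ]
    rw [ch_one]
    push_cast; ring
  rw [huu] at hU
  exact_mod_cast hU.symm

end Pool.Agent.R221.Bi
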